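import Pool.Agent.J4H46.HD.Sum

set_option autoImplicit false

/-! The sum of `1 / √d` over the exceptional moduli: conclusion. -/

namespace Pool.Agent.J4H46.HD

open Finset Filter Topology Pool.Agent.R503.PS

/-- the factor of one block -/
lemma factor {x k k₀ : ℕ} {γ A : ℝ} (hγ : γ = 1 / 2 - 1 / A) (hγ0 : 0 < γ) (hγ1 : γ ≤ 1 / 2)
    (hk₀ : 4 / γ ≤ k₀) (hx : 2 ≤ x) (hl : 1 ≤ Real.log x) (hk : 2 ≤ k)
    (hkK : (k : ℝ) ≤ 4 * (x : ℝ) ^ (1 / A))
    (h5 : (2 * k₀ : ℝ) * Real.log x ^ 3 ≤ (x : ℝ) ^ (γ / 8))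
    (h6 : (8 : ℝ) * Real.log x ^ 3 ≤ (x : ℝ) ^ (γ / 4)) :
    (x : ℝ) ^ (1 / 2 : ℝ) * (2 * k * Real.log x ^ 3 * (x : ℝ) ^ (2 * (γ / 8) - 1 / 2)) ^ k ≤
      if k ≤ k₀ then (x : ℝ) ^ (-(1 / 8) : ℝ) else (x : ℝ) ^ (-(3 / 2) : ℝ) := by
  have hxr : (2 : ℝ) ≤ x := by exact_mod_cast hx
  have hx0 : (0 : ℝ) < x := by linarith
  have hx1 : (1 : ℝ) ≤ x := by linarith
  have hkr : (0 : ℝ) < k := by
    have : 0 < k := by omega
    exact_mod_cast this
  have hl0 : 0 < Real.log (x : ℝ) := by linarith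
  set l : ℝ := Real.log x with hldef
  set r : ℝ := 2 * k * l ^ 3 * (x : ℝ) ^ (2 * (γ / 8) - 1 / 2) with hr
  have hr0 : 0 ≤ r := by positivity
  split_ifs with hkk
  · have hkkr : (k : ℝ) ≤ k₀ := by exact_mod_cast hkk
    have h1 : r ≤ (x : ℝ) ^ (-(5 / 16) : ℝ) := by
      calc r ≤ (x : ℝ) ^ (γ / 8) * (x : ℝ) ^ (2 * (γ / 8) - 1 / 2) := by
            rw [hr]
            apply mul_le_mul_of_nonneg_right _ (by positivity)
            refine le_trans ?_ h5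
            apply mul_le_mul_of_nonneg_right _ (by positivity)
            linarith
        _ = (x : ℝ) ^ (γ / 8 + (2 * (γ / 8) - 1 / 2)) := by rw [Real.rpow_add hx0]
        _ ≤ _ := Real.rpow_le_rpow_of_exponent_le hx1 (by linarith)
    have h2 : r ≤ 1 := h1.trans (Real.rpow_le_one_of_one_le_of_nonpos hx1 (by norm_num))
    have h3 : r ^ k ≤ r ^ 2 := pow_le_pow_of_le_one hr0 h2 hk
    have h4 : r ^ 2 ≤ ((x : ℝ) ^ (-(5 / 16) : ℝ)) ^ 2 := pow_le_pow_left₀ hr0 h1 2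
    calc (x : ℝ) ^ (1 / 2 : ℝ) * r ^ k ≤ (x : ℝ) ^ (1 / 2 : ℝ) * ((x : ℝ) ^ (-(5 / 16) : ℝ)) ^ 2 :=
          mul_le_mul_of_nonneg_left (h3.trans h4) (by positivity)
      _ = (x : ℝ) ^ (-(1 / 8) : ℝ) := by
          rw [← Real.rpow_natCast, ← Real.rpow_mul hx0.le, ← Real.rpow_add hx0]
          norm_num
  · have h1 : r ≤ (x : ℝ) ^ (-(γ / 2)) := by
      calc r ≤ 2 * (4 * (x : ℝ) ^ (1 / A)) * l ^ 3 * (x : ℝ) ^ (2 * (γ / 8) - 1 / 2) := by
            rw [hr]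
            apply mul_le_mul_of_nonneg_right _ (by positivity)
            apply mul_le_mul_of_nonneg_right _ (by positivity)
            linarith
        _ = (8 * l ^ 3) * ((x : ℝ) ^ (1 / A) * (x : ℝ) ^ (2 * (γ / 8) - 1 / 2)) := by ring
        _ ≤ (x : ℝ) ^ (γ / 4) * ((x : ℝ) ^ (1 / A) * (x : ℝ) ^ (2 * (γ / 8) - 1 / 2)) :=
            mul_le_mul_of_nonneg_right h6 (by positivity)
        _ = (x : ℝ) ^ (-(γ / 2)) := by
            rw [← Real.rpow_add hx0, ← Real.rpow_add hx0]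
            congr 1
            rw [hγ]; ring
    have h2 : (x : ℝ) ^ (-(γ / 2)) ≤ 1 :=
      Real.rpow_le_one_of_one_le_of_nonpos hx1 (by linarith)
    have h3 : r ^ k ≤ ((x : ℝ) ^ (-(γ / 2))) ^ k₀ :=
      (pow_le_pow_left₀ hr0 h1 k).trans
        (pow_le_pow_of_le_one (by positivity) h2 (by omega))
    have h4 : ((x : ℝ) ^ (-(γ / 2))) ^ k₀ ≤ (x : ℝ) ^ (-2 : ℝ) := by
      rw [← Real.rpow_natCast, ← Real.rpow_mul hx0.le]
      apply Real.rpow_le_rpow_of_exponent_le hx1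
      rw [div_le_iff₀ hγ0] at hk₀
      linarith
    calc (x : ℝ) ^ (1 / 2 : ℝ) * r ^ k ≤ (x : ℝ) ^ (1 / 2 : ℝ) * (x : ℝ) ^ (-2 : ℝ) :=
          mul_le_mul_of_nonneg_left (h3.trans h4) (by positivity)
      _ = (x : ℝ) ^ (-(3 / 2) : ℝ) := by
          rw [← Real.rpow_add hx0]
          norm_num

theorem sum_small (A : ℝ) (hA : 2 < A) (U : ℕ) : ∀ᶠ x : ℕ in atTop, ∀ X : ℕ,
    Real.log X ≤ ((x : ℝ) + 1) ^ (1 / A) → ∀ D : Finset ℕ,
    (∀ d ∈ D, Odd d ∧ Squarefree d ∧ d ≤ X ∧ Few x (Nat.log 2 X) d ∧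
      Real.log x ^ (2 * (U + 10)) < d) →
    (∑ d ∈ D, 1 / √(d : ℝ)) * Real.log x ^ U ≤ 1 := by
  classical
  obtain ⟨γ, hγ⟩ : ∃ γ : ℝ, γ = 1 / 2 - 1 / A := ⟨_, rfl⟩
  have hA0 : 0 < A := by linarith
  have hAi : 1 / A < 1 / 2 := one_div_lt_one_div_of_lt (by norm_num) hA
  have hAi0 : 0 < 1 / A := by positivity
  have hγ0 : 0 < γ := by rw [hγ]; linarith
  have hγ1 : γ ≤ 1 / 2 := by rw [hγ]; linarith
  obtain ⟨k₀, hk₀⟩ := exists_nat_ge (4 / γ)
  obtain ⟨C, hC, hHB⟩ := few_card_hb (γ / 8) (by positivity)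
  filter_upwards [PP_card, log_large 1536, small_moduli, log_pow_rpow 3 (2 * k₀)
    (show 0 < γ / 8 by positivity), log_pow_rpow 3 8 (show 0 < γ / 4 by positivity),
    log_pow_rpow 3 64 (show 0 < 2 * γ by positivity),
    log_pow_rpow U (2 * C * (k₀ + 4)) (show (0 : ℝ) < 1 / 8 by norm_num),
    eventually_ge_atTop 2] with x hPP hl hsm h5 h6 h7 h8 hx2 X hX D hD
  have hxr : (2 : ℝ) ≤ x := by exact_mod_cast hx2
  have hx0 : (0 : ℝ) < x := by linarith
  have hx1 : (1 : ℝ) ≤ x := by linarith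
  have hl1 : 1 ≤ Real.log (x : ℝ) := by linarith
  have hl0 : 0 < Real.log (x : ℝ) := by linarith
  set P : ℕ := (PP x).card with hPdef
  set l : ℝ := Real.log x with hldef
  set w : ℝ := (x : ℝ) ^ (1 / A) with hw
  have hw1 : 1 ≤ w := Real.one_le_rpow hx1 hAi0.le
  have hlogX : Real.log X ≤ 2 * w := by
    refine hX.trans ?_
    calc ((x : ℝ) + 1) ^ (1 / A) ≤ (2 * (x : ℝ)) ^ (1 / A) :=
          Real.rpow_le_rpow (by positivity) (by linarith) hAi0.le
      _ = 2 ^ (1 / A) * w := by rw [Real.mul_rpow (by norm_num) hx0.le]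
      _ ≤ 2 * w := by
          apply mul_le_mul_of_nonneg_right _ (by positivity)
          calc (2 : ℝ) ^ (1 / A) ≤ 2 ^ (1 : ℝ) :=
                Real.rpow_le_rpow_of_exponent_le (by norm_num) (by linarith)
            _ = 2 := Real.rpow_one 2
  set b : ℕ := Nat.log 2 X with hb
  have hbw : (b : ℝ) ≤ 4 * w := by
    rcases Nat.eq_zero_or_pos X with h0 | h0
    · rw [hb, h0, Nat.log_zero_right]
      push_cast
      linarith
    have h1 : 2 ^ b ≤ X := Nat.pow_log_le_self 2 (by omega)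
    have h2 : ((2 : ℝ) ^ b) ≤ X := by exact_mod_cast h1
    have h3 := Real.log_le_log (by positivity) h2
    rw [Real.log_pow] at h3
    have h4 := Real.log_two_gt_d9
    have h5 : (b : ℝ) * (1 / 2) ≤ b * Real.log 2 :=
      mul_le_mul_of_nonneg_left (by linarith) (Nat.cast_nonneg _)
    linarith
  -- `64 w² ≤ P`
  have hwP : 64 * w ^ 2 ≤ P := by
    refine le_trans ?_ hPP
    rw [le_div_iff₀ (by positivity)]
    have e1 : w ^ 2 * (x : ℝ) ^ (2 * γ) = x := by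
      rw [hw, ← Real.rpow_natCast, ← Real.rpow_mul hx0.le, ← Real.rpow_add hx0]
      have : 1 / A * ((2 : ℕ) : ℝ) + 2 * γ = 1 := by rw [hγ]; push_cast; ring
      rw [this, Real.rpow_one]
    calc 64 * w ^ 2 * l ^ 3 = w ^ 2 * (64 * l ^ 3) := by ring
      _ ≤ w ^ 2 * (x : ℝ) ^ (2 * γ) := mul_le_mul_of_nonneg_left h7 (by positivity)
      _ = x := e1
  have hww : w ≤ w ^ 2 := by nlinarith
  -- the small moduli
  have h12b : 12 * b ≤ P := by
    have : (12 : ℝ) * b ≤ P := by linarith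
    exact_mod_cast this
  set D₁ := D.filter fun d => d ≤ x with hD₁
  set D₂ := D.filter fun d => ¬ d ≤ x with hD₂
  have hsplit : ∑ d ∈ D, 1 / √(d : ℝ) = ∑ d ∈ D₁, 1 / √(d : ℝ) + ∑ d ∈ D₂, 1 / √(d : ℝ) :=
    (sum_filter_add_sum_filter_not D _ _).symm
  have hc1 := hsm b h12b D₁ (by
    intro d hd
    rw [hD₁, mem_filter] at hd
    obtain ⟨g1, g2, g3, g4, g5⟩ := hD d hd.1
    exact ⟨g1, g2, hd.2, g4⟩)
  have hS1 : (∑ d ∈ D₁, 1 / √(d : ℝ)) * l ^ U ≤ 1 / 2 := by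
    have g1 : ∀ d ∈ D₁, 1 / √(d : ℝ) ≤ 1 / l ^ (U + 10) := by
      intro d hd
      rw [hD₁, mem_filter] at hd
      have g5 := (hD d hd.1).2.2.2.2
      apply one_div_le_one_div_of_le (by positivity)
      apply Real.le_sqrt_of_sq_le
      rw [← pow_mul, mul_comm (U + 10) 2]
      exact g5.le
    have g2 := sum_le_sum g1
    rw [sum_const, nsmul_eq_mul] at g2
    calc (∑ d ∈ D₁, 1 / √(d : ℝ)) * l ^ U ≤ (D₁.card * (1 / l ^ (U + 10))) * l ^ U :=
          mul_le_mul_of_nonneg_right g2 (by positivity)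
      _ ≤ ((768 * l ^ 9) * (1 / l ^ (U + 10))) * l ^ U := by
          apply mul_le_mul_of_nonneg_right _ (by positivity)
          exact mul_le_mul_of_nonneg_right hc1 (by positivity)
      _ = 768 / l := by
          have e : l ^ (U + 10) = l ^ 9 * l ^ U * l := by ring
          rw [e]
          field_simp
      _ ≤ 1 / 2 := by
          rw [div_le_iff₀ hl0]; linarith
  -- the large moduli
  obtain ⟨K, hK⟩ : ∃ K : ℕ, K = ⌊4 * w⌋₊ := ⟨_, rfl⟩
  have hKw : (K : ℝ) ≤ 4 * w := by rw [hK]; exact Nat.floor_le (by positivity)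
  have hmap : ∀ d ∈ D₂, Nat.clog x d ∈ Icc 2 K := by
    intro d hd
    rw [hD₂, mem_filter, not_le] at hd
    obtain ⟨hdD, hdx⟩ := hd
    obtain ⟨g1, g2, g3, g4, g5⟩ := hD d hdD
    have hc2 : 1 < Nat.clog x d := by
      rw [Nat.lt_clog_iff_pow_lt (by omega)]
      simpa using hdx
    rw [mem_Icc]
    refine ⟨hc2, ?_⟩
    rw [hK]
    apply Nat.le_floor
    have h9 : x ^ (Nat.clog x d - 1) < d := by
      rw [← Nat.lt_clog_iff_pow_lt (by omega)]
      omega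
    have h10 : ((x : ℝ) ^ (Nat.clog x d - 1)) ≤ X := by
      have : x ^ (Nat.clog x d - 1) ≤ X := h9.le.trans g3
      exact_mod_cast this
    have h11 := Real.log_le_log (by positivity) h10
    rw [Real.log_pow, Nat.cast_sub (by omega)] at h11
    push_cast at h11
    have h12 : 0 ≤ (Nat.clog x d : ℝ) - 1 := by
      have : (1 : ℝ) ≤ Nat.clog x d := by exact_mod_cast (by omega : 1 ≤ Nat.clog x d)
      linarith
    have h13 : ((Nat.clog x d : ℝ) - 1) * 1 ≤ ((Nat.clog x d : ℝ) - 1) * l :=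
      mul_le_mul_of_nonneg_left hl1 h12
    linarith
  have hS2 : ∑ d ∈ D₂, 1 / √(d : ℝ) ≤ C * ((k₀ + 4) * (x : ℝ) ^ (-(1 / 8) : ℝ)) := by
    rw [← sum_fiberwise_of_maps_to hmap]
    have g1 : ∀ k ∈ Icc 2 K, ∑ d ∈ D₂ with Nat.clog x d = k, 1 / √(d : ℝ) ≤
        C * (if k ≤ k₀ then (x : ℝ) ^ (-(1 / 8) : ℝ) else (x : ℝ) ^ (-(3 / 2) : ℝ)) := by
      intro k hk
      rw [mem_Icc] at hk
      have hkK : (k : ℝ) ≤ 4 * w := le_trans (by exact_mod_cast hk.2) hKw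
      have hkP : 2 * k ≤ P := by
        have : (2 : ℝ) * k ≤ P := by linarith
        exact_mod_cast this
      have hbkP : 4 * b * k ≤ P := by
        have g0 : (b : ℝ) * k ≤ (4 * w) * (4 * w) :=
          mul_le_mul hbw hkK (Nat.cast_nonneg _) (by positivity)
        have : (4 : ℝ) * b * k ≤ P := by
          calc (4 : ℝ) * b * k = 4 * (b * k) := by ring
            _ ≤ 4 * ((4 * w) * (4 * w)) := mul_le_mul_of_nonneg_left g0 (by norm_num)
            _ = 64 * w ^ 2 := by ring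
            _ ≤ P := hwP
        exact_mod_cast this
      have g2 := block C (γ / 8) hC (x := x) (k := k) (b := b) (P := P) (X := X) hPdef hHB hx2
        hk.1 hl1 hPP hbkP hkP (D₂.filter fun d => Nat.clog x d = k) (by
          intro d hd
          rw [mem_filter, hD₂, mem_filter, not_le] at hd
          obtain ⟨⟨hdD, hdx⟩, hdk⟩ := hd
          obtain ⟨q1, q2, q3, q4, q5⟩ := hD d hdD
          refine ⟨q1, q2, q3, q4, ?_, ?_⟩
          · rw [← Nat.lt_clog_iff_pow_lt (by omega), hdk]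
            omega
          · rw [← hdk]
            exact Nat.le_pow_clog (by omega) d)
      refine g2.trans ?_
      rw [mul_assoc]
      exact mul_le_mul_of_nonneg_left (factor hγ hγ0 hγ1 hk₀ hx2 hl1 hk.1 hkK h5 h6) hC.le
    refine (sum_le_sum g1).trans ?_
    rw [← mul_sum]
    apply mul_le_mul_of_nonneg_left _ hC.le
    rw [← sum_filter_add_sum_filter_not (Icc 2 K) (fun k => k ≤ k₀)]
    have e1 : ∑ k ∈ Icc 2 K with k ≤ k₀,
        (if k ≤ k₀ then (x : ℝ) ^ (-(1 / 8) : ℝ) else (x : ℝ) ^ (-(3 / 2) : ℝ)) ≤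
        k₀ * (x : ℝ) ^ (-(1 / 8) : ℝ) := by
      rw [sum_congr rfl (g := fun _ => (x : ℝ) ^ (-(1 / 8) : ℝ)) (fun k hk => by
        rw [if_pos (mem_filter.1 hk).2]), sum_const, nsmul_eq_mul]
      apply mul_le_mul_of_nonneg_right _ (by positivity)
      have : ((Icc 2 K).filter fun k => k ≤ k₀).card ≤ k₀ := by
        have h1 : ((Icc 2 K).filter fun k => k ≤ k₀) ⊆ Icc 1 k₀ := by
          intro k hk
          rw [mem_filter, mem_Icc] at hk
          rw [mem_Icc]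
          omega
        have h2 := card_le_card h1
        rwa [Nat.card_Icc, Nat.add_sub_cancel] at h2
      exact_mod_cast this
    have e2 : ∑ k ∈ Icc 2 K with ¬ k ≤ k₀,
        (if k ≤ k₀ then (x : ℝ) ^ (-(1 / 8) : ℝ) else (x : ℝ) ^ (-(3 / 2) : ℝ)) ≤
        4 * (x : ℝ) ^ (-(1 / 8) : ℝ) := by
      rw [sum_congr rfl (g := fun _ => (x : ℝ) ^ (-(3 / 2) : ℝ)) (fun k hk => by
        rw [if_neg (mem_filter.1 hk).2]), sum_const, nsmul_eq_mul]
      have h1 : (((Icc 2 K).filter fun k => ¬ k ≤ k₀).card : ℝ) ≤ 4 * w := by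
        refine le_trans ?_ hKw
        have h1 : ((Icc 2 K).filter fun k => ¬ k ≤ k₀).card ≤ (Icc 1 K).card :=
          card_le_card fun k hk => by
            rw [mem_filter, mem_Icc] at hk
            rw [mem_Icc]
            omega
        rw [Nat.card_Icc, Nat.add_sub_cancel] at h1
        exact_mod_cast h1
      calc (((Icc 2 K).filter fun k => ¬ k ≤ k₀).card : ℝ) * (x : ℝ) ^ (-(3 / 2) : ℝ) ≤
            (4 * w) * (x : ℝ) ^ (-(3 / 2) : ℝ) := mul_le_mul_of_nonneg_right h1 (by positivity)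
        _ = 4 * ((x : ℝ) ^ (1 / A) * (x : ℝ) ^ (-(3 / 2) : ℝ)) := by rw [hw]; ring
        _ = 4 * (x : ℝ) ^ (1 / A + -(3 / 2)) := by rw [Real.rpow_add hx0]
        _ ≤ 4 * (x : ℝ) ^ (-(1 / 8) : ℝ) := by
            apply mul_le_mul_of_nonneg_left _ (by norm_num)
            exact Real.rpow_le_rpow_of_exponent_le hx1 (by linarith)
    calc _ ≤ k₀ * (x : ℝ) ^ (-(1 / 8) : ℝ) + 4 * (x : ℝ) ^ (-(1 / 8) : ℝ) := add_le_add e1 e2
      _ = _ := by ring
  have hS2' : (∑ d ∈ D₂, 1 / √(d : ℝ)) * l ^ U ≤ 1 / 2 := by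
    calc (∑ d ∈ D₂, 1 / √(d : ℝ)) * l ^ U ≤
          (C * ((k₀ + 4) * (x : ℝ) ^ (-(1 / 8) : ℝ))) * l ^ U :=
          mul_le_mul_of_nonneg_right hS2 (by positivity)
      _ = (2 * C * (k₀ + 4) * l ^ U) * (x : ℝ) ^ (-(1 / 8) : ℝ) / 2 := by ring
      _ ≤ (x : ℝ) ^ (1 / 8 : ℝ) * (x : ℝ) ^ (-(1 / 8) : ℝ) / 2 := by
          apply div_le_div_of_nonneg_right _ (by norm_num)
          exact mul_le_mul_of_nonneg_right h8 (by positivity)
      _ = 1 / 2 := by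
          rw [← Real.rpow_add hx0]
          norm_num
  rw [hsplit, add_mul]
  linarith

end Pool.Agent.J4H46.HD
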