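import Pool.Agent.J4H46.HD.Disc
import Pool.Agent.J4H46.HD.SumB
import Pool.Agent.R503.PS.Final

set_option autoImplicit false

/-! Counting the degrees. -/

namespace Pool.Agent.J4H46.HD

open Finset Filter Topology Pool.Agent.R503.PS Pool.Agent.N998.CT Pool.Agent.R920.CH

/-- The conditions on the Chern classes `c`, `d`. -/
structure Cond (N : ℕ) (c d : ℤ) : Prop where
  riemannRoch : RiemannRoch N (poly2 c d)
  positive : ∀ j : ℕ, j + 2 ≤ N → 0 ≤ seg (c - 2) (d - c + 1) j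
  unstable : 4 * d ≤ c ^ 2 → ∃ a b : ℤ, a + b = c ∧ 0 < b ∧ b ≤ a ∧ 0 < d - a * b ∧
    ∀ j : ℕ, j + 3 ≤ N →
      (a - 1) * seg (c - 2) (d - c + 1) j ≤ seg (c - 2) (d - c + 1) (j + 1)

/-- the conditions on hyperplane sections -/
lemma Cond.mono {N M : ℕ} {c d : ℤ} (h : Cond N c d) (hM : M ≤ N) : Cond M c d := by
  refine ⟨fun f hf hd => h.riemannRoch f hf (hd.trans hM), fun j hj => h.positive j (by omega),
    fun hD => ?_⟩
  obtain ⟨a, b, h1, h2, h3, h4, h5⟩ := h.unstable hD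
  exact ⟨a, b, h1, h2, h3, h4, fun j hj => h5 j (by omega)⟩

/-- the bound of `√|D| / √d` -/
noncomputable def kap (N X : ℕ) : ℝ := 11 * Real.log X / ((N : ℝ) - 3)

theorem facts {N X : ℕ} (hN : 12 ≤ N) (hX : 2 ≤ X) (hlog : 4 * Real.log X ≤ (N : ℝ) - 3)
    {c d : ℤ} (hd1 : 1 ≤ d) (hdX : d ≤ X) (h : Cond N c d) :
    0 < c ∧ |(c : ℝ) ^ 2 - 4 * d| ≤ kap N X ^ 2 * d ∧
      (0 ≤ c ^ 2 - 4 * d → ((N : ℤ) - 2) ^ 2 < d) ∧ Sq N (c ^ 2 - 4 * d) := by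
  have hNr : (12 : ℝ) ≤ N := by exact_mod_cast hN
  have hN3 : (0 : ℝ) < (N : ℝ) - 3 := by linarith
  have hXr : (2 : ℝ) ≤ X := by exact_mod_cast hX
  have hd1r : (1 : ℝ) ≤ d := by exact_mod_cast hd1
  have hdXr : (d : ℝ) ≤ X := by exact_mod_cast hdX
  have hl2 : (0.69 : ℝ) ≤ Real.log X := by
    have h1 := Real.log_le_log (by norm_num) hXr
    have h2 := Real.log_two_gt_d9
    linarith
  have hld : Real.log d ≤ Real.log X := Real.log_le_log (by linarith) hdXr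
  have hld0 : 0 ≤ Real.log (d : ℝ) := Real.log_nonneg hd1r
  have hsq : Sq N (c ^ 2 - 4 * d) := fun p hp hp2 hpn => square_mod h.riemannRoch p hp hp2 hpn
  have hkap : kap N X ^ 2 * d * ((N : ℝ) - 3) ^ 2 = 121 * Real.log X ^ 2 * d := by
    unfold kap
    field_simp
    ring
  rcases lt_or_ge (c ^ 2) (4 * d) with hD | hD
  · obtain ⟨h1, h2⟩ := disc_neg N hN c d h.positive hD
    refine ⟨h1, ?_, fun h3 => by linarith, hsq⟩
    have hDr : (c : ℝ) ^ 2 < 4 * d := by exact_mod_cast hD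
    have h2r : ((N : ℝ) - 1) ^ 2 * (4 * d - (c : ℝ) ^ 2) ≤ 49 * d := by exact_mod_cast h2
    rw [abs_of_neg (by linarith)]
    have h3 : (4 * d - (c : ℝ) ^ 2) * ((N : ℝ) - 3) ^ 2 ≤ 121 * Real.log X ^ 2 * d := by
      have h4 : ((N : ℝ) - 3) ^ 2 ≤ ((N : ℝ) - 1) ^ 2 := by nlinarith
      have h5 : (4 * d - (c : ℝ) ^ 2) * ((N : ℝ) - 3) ^ 2 ≤
          (4 * d - (c : ℝ) ^ 2) * ((N : ℝ) - 1) ^ 2 :=
        mul_le_mul_of_nonneg_left h4 (by linarith)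
      have h6 : (49 : ℝ) ≤ 121 * Real.log X ^ 2 := by nlinarith
      have h7 : 49 * (d : ℝ) ≤ 121 * Real.log X ^ 2 * d :=
        mul_le_mul_of_nonneg_right h6 (by linarith)
      linarith
    rw [← hkap] at h3
    have h4 := le_of_mul_le_mul_right h3 (by positivity)
    linarith
  · obtain ⟨a, b, hab, hb, hba, hz, hj⟩ := h.unstable hD
    obtain ⟨h1, h2, h3, h4⟩ := disc_pos N (by omega) c d a b hb hba hab hz hD hj
      (by linarith)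
    refine ⟨h2, ?_, fun _ => h1, hsq⟩
    have hDr : 4 * (d : ℝ) ≤ (c : ℝ) ^ 2 := by exact_mod_cast hD
    rw [abs_of_nonneg (by linarith)]
    have h5 : Real.log d ^ 2 ≤ Real.log X ^ 2 := pow_le_pow_left₀ hld0 hld 2
    have h6 : 16 * Real.log d ^ 2 * d ≤ 121 * Real.log X ^ 2 * d := by
      apply mul_le_mul_of_nonneg_right _ (by linarith)
      have : 0 ≤ Real.log (X : ℝ) ^ 2 := by positivity
      linarith
    have h7 := h4.trans h6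
    rw [← hkap] at h7
    exact le_of_mul_le_mul_right h7 (by positivity)

/-- near factors -/
lemma near_factors {κ : ℝ} (hκ : 0 ≤ κ) {X d : ℕ} {c : ℤ} (hc : 0 < c) (hd1 : 1 ≤ d)
    (hdX : d ≤ X) (hsq : IsSquare (c ^ 2 - 4 * (d : ℤ)))
    (hD : |(c : ℝ) ^ 2 - 4 * d| ≤ κ ^ 2 * d) :
    ∃ b e : ℕ, 1 ≤ b ∧ d = b * (b + e) ∧ (b : ℝ) ≤ √(X : ℝ) ∧ (e : ℝ) ≤ κ * √(X : ℝ) ∧
      c = 2 * b + e := by
  obtain ⟨r, hr⟩ := hsq
  obtain ⟨e, he⟩ : ∃ e : ℕ, e = r.natAbs := ⟨_, rfl⟩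
  have her : (e : ℤ) ^ 2 = r * r := by
    rw [he, Int.natCast_natAbs, sq_abs, sq]
  have hd1z : (1 : ℤ) ≤ d := by exact_mod_cast hd1
  have hfac : (c - e) * (c + e) = 4 * d := by linarith [sq_nonneg c]
  have he0 : (0 : ℤ) ≤ e := Nat.cast_nonneg _
  have hce : 0 < c - e := by
    by_contra hcon
    push Not at hcon
    nlinarith
  have hpar : ∃ b : ℤ, c - e = 2 * b := by
    rcases Int.even_or_odd' (c - e) with ⟨b, hb | hb⟩
    · exact ⟨b, hb⟩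
    · exfalso
      have h1 : c + e = 2 * (b + e) + 1 := by linarith
      rw [hb, h1] at hfac
      have h2 : (2 * b + 1) * (2 * (b + (e : ℤ)) + 1) = 2 * (2 * b * (b + e) + b + (b + e)) + 1 := by
        ring
      omega
  obtain ⟨b', hb'⟩ := hpar
  obtain ⟨b, rfl⟩ : ∃ b : ℕ, b' = b := ⟨b'.toNat, by rw [Int.toNat_of_nonneg (by omega)]⟩
  have hb1 : 1 ≤ b := by omega
  have hcb : c = 2 * b + e := by linarith
  have hdb : (d : ℤ) = b * (b + e) := by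
    have h1 : (2 * (b : ℤ)) * (2 * (b + e)) = 4 * d := by
      rw [← hfac, hb', hcb]; ring
    linarith
  have hdb' : d = b * (b + e) := by exact_mod_cast hdb
  refine ⟨b, e, hb1, hdb', ?_, ?_, hcb⟩
  · apply Real.le_sqrt_of_sq_le
    have h1 : b ^ 2 ≤ X := by
      calc b ^ 2 = b * b := sq b
        _ ≤ b * (b + e) := Nat.mul_le_mul_left _ (by omega)
        _ = d := hdb'.symm
        _ ≤ X := hdX
    exact_mod_cast h1
  · have hXr : (d : ℝ) ≤ X := by exact_mod_cast hdX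
    have h1 : ((c : ℝ) ^ 2 - 4 * d) = (e : ℝ) ^ 2 := by
      have h2 : c ^ 2 - 4 * (d : ℤ) = (e : ℤ) ^ 2 := by rw [her, hr]
      exact_mod_cast h2
    rw [h1, abs_of_nonneg (by positivity)] at hD
    have h3 : (e : ℝ) ^ 2 ≤ (κ * √(X : ℝ)) ^ 2 := by
      rw [mul_pow, Real.sq_sqrt (Nat.cast_nonneg _)]
      exact hD.trans (mul_le_mul_of_nonneg_left hXr (by positivity))
    exact le_of_sq_le_sq' (by positivity) h3
where
  le_of_sq_le_sq' {a b : ℝ} (hb : 0 ≤ b) (h : a ^ 2 ≤ b ^ 2) : a ≤ b := (abs_le_of_sq_le_sq' h hb).2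

/-- square discriminants -/
theorem square_count {N X : ℕ} {κ : ℝ} (hκ : 0 ≤ κ) (hN : 3 ≤ N) (S : Finset ℕ)
    (hS : ∀ d ∈ S, 1 ≤ d ∧ d ≤ X ∧ ((N : ℤ) - 2) ^ 2 < d ∧ ∃ c : ℤ, 0 < c ∧
      IsSquare (c ^ 2 - 4 * (d : ℤ)) ∧ |(c : ℝ) ^ 2 - 4 * d| ≤ κ ^ 2 * d) :
    (S.card : ℝ) ≤ κ * X + X / ((N : ℝ) - 2) := by
  classical
  have hNr : (3 : ℝ) ≤ N := by exact_mod_cast hN
  have hN2 : (0 : ℝ) < (N : ℝ) - 2 := by linarith
  have hX0 : (0 : ℝ) ≤ X := Nat.cast_nonneg _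
  rcases S.eq_empty_or_nonempty with he | ⟨d₀, hd₀⟩
  · rw [he]
    simp only [card_empty, Nat.cast_zero]
    positivity
  have hs0 : (0 : ℝ) ≤ √(X : ℝ) := Real.sqrt_nonneg _
  have hsub : S ⊆ (Icc 1 ⌊√(X : ℝ)⌋₊ ×ˢ range (⌊κ * √(X : ℝ)⌋₊ + 1)).image
      fun t => t.1 * (t.1 + t.2) := by
    intro d hd
    obtain ⟨h1, h2, _, c, h3, h4, h5⟩ := hS d hd
    obtain ⟨b, e, hb1, hdb, hb, he, -⟩ := near_factors hκ h3 h1 h2 h4 h5
    rw [mem_image]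
    refine ⟨(b, e), ?_, hdb.symm⟩
    rw [mem_product, mem_Icc, mem_range]
    exact ⟨⟨hb1, Nat.le_floor hb⟩, Nat.lt_succ_of_le (Nat.le_floor he)⟩
  have hc := (card_le_card hsub).trans card_image_le
  rw [card_product, Nat.card_Icc, card_range, Nat.add_sub_cancel] at hc
  have hcr : (S.card : ℝ) ≤ (⌊√(X : ℝ)⌋₊ : ℝ) * ((⌊κ * √(X : ℝ)⌋₊ : ℝ) + 1) := by exact_mod_cast hc
  have h1 : (⌊√(X : ℝ)⌋₊ : ℝ) ≤ √(X : ℝ) := Nat.floor_le hs0
  have h2 : (⌊κ * √(X : ℝ)⌋₊ : ℝ) ≤ κ * √(X : ℝ) := Nat.floor_le (by positivity)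
  have h3 : (S.card : ℝ) ≤ √(X : ℝ) * (κ * √(X : ℝ) + 1) :=
    hcr.trans (mul_le_mul h1 (by linarith) (by positivity) hs0)
  have h4 : √(X : ℝ) * √(X : ℝ) = X := Real.mul_self_sqrt hX0
  have h5 : (N : ℝ) - 2 ≤ √(X : ℝ) := by
    apply Real.le_sqrt_of_sq_le
    obtain ⟨_, g2, g3, _⟩ := hS d₀ hd₀
    have g4 : ((N : ℤ) - 2) ^ 2 ≤ X := by
      have : (d₀ : ℤ) ≤ X := by exact_mod_cast g2
      linarith
    exact_mod_cast g4
  have h6 : √(X : ℝ) ≤ X / ((N : ℝ) - 2) := by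
    rw [le_div_iff₀ hN2]
    calc √(X : ℝ) * ((N : ℝ) - 2) ≤ √(X : ℝ) * √(X : ℝ) := mul_le_mul_of_nonneg_left h5 hs0
      _ = X := h4
  calc (S.card : ℝ) ≤ √(X : ℝ) * (κ * √(X : ℝ) + 1) := h3
    _ = κ * (√(X : ℝ) * √(X : ℝ)) + √(X : ℝ) := by ring
    _ ≤ κ * X + X / ((N : ℝ) - 2) := by rw [h4]; linarith

open Classical in
/-- the exceptional moduli -/
noncomputable def EE (x X B : ℕ) : Finset ℕ :=
  (range (X + 1)).filter fun d => Odd d ∧ Squarefree d ∧ Few x (Nat.log 2 X) d ∧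
    Real.log x ^ B < d

/-- discriminants which are not squares -/
theorem nonsquare_count (B : ℕ) : ∀ᶠ x : ℕ in atTop, ∀ (X : ℕ) (κ : ℝ), 0 ≤ κ → κ ≤ 1 →
    (Nat.log 2 X : ℝ) ≤ (x : ℝ) ^ (1 / 2 : ℝ) → ∀ S : Finset ℕ,
    (∀ d ∈ S, 1 ≤ d ∧ d ≤ X ∧ ∃ c : ℤ, 0 < c ∧ ¬ IsSquare (c ^ 2 - 4 * (d : ℤ)) ∧
      Sq (x + 1) (c ^ 2 - 4 * (d : ℤ)) ∧ |(c : ℝ) ^ 2 - 4 * d| ≤ κ ^ 2 * d) →
    (S.card : ℝ) ≤ 9 * κ * X * ∑ m ∈ EE x X B, 1 / √(m : ℝ) := by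
  classical
  filter_upwards [struct' B] with x hst X κ hκ0 hκ1 hlog S hS
  have hX0 : (0 : ℝ) ≤ X := Nat.cast_nonneg _
  set T : Finset (ℕ × ℕ) := (EE x X B).sigma (fun m => Icc 1 ⌊κ * √(X : ℝ) / √(m : ℝ)⌋₊) |>.image
    fun s => (s.1, s.2) with hT
  set W : Finset ℤ := (({1, -1, 2, -2} : Finset ℤ) ×ˢ T).image
    fun t => t.1 * (t.2.1 : ℤ) * (t.2.2 : ℤ) ^ 2 with hW
  have hsub : S ⊆ (Icc 1 ⌊√(5 * (X : ℝ))⌋₊ ×ˢ W).image
      fun t => (((t.1 : ℤ) ^ 2 - t.2) / 4).toNat := by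
    intro d hd
    obtain ⟨h1, h2, c, h3, h4, h5, h6⟩ := hS d hd
    have hdr : (d : ℝ) ≤ X := by exact_mod_cast h2
    have hd0 : (0 : ℝ) ≤ d := Nat.cast_nonneg _
    have hκ2 : κ ^ 2 ≤ 1 := pow_le_one₀ hκ0 hκ1
    have habs : |(c : ℝ) ^ 2 - 4 * d| ≤ (d : ℝ) := by
      refine h6.trans ?_
      calc κ ^ 2 * (d : ℝ) ≤ 1 * (d : ℝ) := mul_le_mul_of_nonneg_right hκ2 hd0
        _ = (d : ℝ) := one_mul _
    have hnat : (c ^ 2 - 4 * (d : ℤ)).natAbs ≤ X := by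
      have h7 : (((c ^ 2 - 4 * (d : ℤ)).natAbs : ℤ) : ℝ) ≤ X := by
        rw [Int.natCast_natAbs]
        push_cast
        exact habs.trans hdr
      exact_mod_cast h7
    obtain ⟨u, m, f, hu, hDe, hodd, hsqf, hf, hfew, hm⟩ := hst X hlog _ h4 hnat h5
    have hm0 : 0 < m := Nat.pos_of_ne_zero hsqf.ne_zero
    have hm0r : (0 : ℝ) < m := by exact_mod_cast hm0
    have hu1 : (1 : ℝ) ≤ |(u : ℝ)| := by
      rcases hu with rfl | rfl | rfl | rfl <;> norm_num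
    -- `m f² ≤ κ² X`
    have hmf : (m : ℝ) * (f : ℝ) ^ 2 ≤ κ ^ 2 * X := by
      have h7 : (c : ℝ) ^ 2 - 4 * d = u * m * (f : ℝ) ^ 2 := by exact_mod_cast hDe
      rw [h7, abs_mul, abs_mul, abs_of_nonneg (Nat.cast_nonneg m : (0 : ℝ) ≤ m),
        abs_of_nonneg (by positivity : (0 : ℝ) ≤ (f : ℝ) ^ 2)] at h6
      have h8 : (m : ℝ) * (f : ℝ) ^ 2 ≤ |(u : ℝ)| * m * (f : ℝ) ^ 2 := by
        have : 0 ≤ (m : ℝ) * (f : ℝ) ^ 2 := by positivity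
        nlinarith
      have h9 : κ ^ 2 * (d : ℝ) ≤ κ ^ 2 * X := mul_le_mul_of_nonneg_left hdr (by positivity)
      linarith
    have hfle : (f : ℝ) ≤ κ * √(X : ℝ) / √(m : ℝ) := by
      have hsm : 0 < √(m : ℝ) := Real.sqrt_pos.2 hm0r
      rw [le_div_iff₀ hsm]
      apply (abs_le_of_sq_le_sq' _ (by positivity)).2
      rw [mul_pow, mul_pow, Real.sq_sqrt hm0r.le, Real.sq_sqrt hX0]
      linarith
    have hmX : m ≤ X := by
      have h7 : (m : ℝ) ≤ X := by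
        have hf1 : (1 : ℝ) ≤ (f : ℝ) ^ 2 := by
          have : (1 : ℝ) ≤ f := by exact_mod_cast hf
          nlinarith
        calc (m : ℝ) = m * 1 := by ring
          _ ≤ m * (f : ℝ) ^ 2 := mul_le_mul_of_nonneg_left hf1 hm0r.le
          _ ≤ κ ^ 2 * X := hmf
          _ ≤ 1 * X := mul_le_mul_of_nonneg_right hκ2 hX0
          _ = X := one_mul _
      exact_mod_cast h7
    obtain ⟨c', rfl⟩ : ∃ c' : ℕ, c = c' := ⟨c.toNat, by rw [Int.toNat_of_nonneg (by omega)]⟩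
    have hc' : 1 ≤ c' := by omega
    have hcle : (c' : ℝ) ≤ √(5 * (X : ℝ)) := by
      apply Real.le_sqrt_of_sq_le
      have h7 := (abs_le.1 habs).2
      push_cast at h7
      linarith
    rw [mem_image]
    refine ⟨(c', u * m * (f : ℤ) ^ 2), ?_, ?_⟩
    · rw [mem_product, mem_Icc]
      refine ⟨⟨hc', Nat.le_floor hcle⟩, ?_⟩
      rw [hW, mem_image]
      refine ⟨(u, (m, f)), ?_, rfl⟩
      rw [mem_product]
      refine ⟨by simpa using hu, ?_⟩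
      rw [hT, mem_image]
      refine ⟨⟨m, f⟩, ?_, rfl⟩
      rw [mem_sigma, mem_Icc]
      refine ⟨?_, hf, Nat.le_floor hfle⟩
      unfold EE
      rw [mem_filter, mem_range]
      exact ⟨Nat.lt_succ_of_le hmX, hodd, hsqf, hfew, hm⟩
    · simp only
      rw [← hDe]
      have : (c' : ℤ) ^ 2 - ((c' : ℤ) ^ 2 - 4 * d) = d * 4 := by ring
      rw [this, Int.mul_ediv_cancel _ (by norm_num)]
      exact Int.toNat_natCast d
  have hc := (card_le_card hsub).trans card_image_le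
  rw [card_product, Nat.card_Icc, Nat.add_sub_cancel] at hc
  have hWc : (W.card : ℝ) ≤ 4 * (κ * √(X : ℝ) * ∑ m ∈ EE x X B, 1 / √(m : ℝ)) := by
    have h1 : W.card ≤ 4 * T.card := by
      refine card_image_le.trans ?_
      rw [card_product]
      exact Nat.mul_le_mul_right _ (by decide)
    have h2 : T.card ≤ ∑ m ∈ EE x X B, ⌊κ * √(X : ℝ) / √(m : ℝ)⌋₊ := by
      refine card_image_le.trans ?_
      rw [card_sigma]
      apply sum_le_sum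
      intro m _
      rw [Nat.card_Icc, Nat.add_sub_cancel]
    have h3 : ((∑ m ∈ EE x X B, ⌊κ * √(X : ℝ) / √(m : ℝ)⌋₊ : ℕ) : ℝ) ≤
        κ * √(X : ℝ) * ∑ m ∈ EE x X B, 1 / √(m : ℝ) := by
      push_cast
      rw [mul_sum]
      apply sum_le_sum
      intro m _
      rw [mul_one_div]
      exact Nat.floor_le (by positivity)
    have h4 : (W.card : ℝ) ≤ 4 * T.card := by exact_mod_cast h1
    have h5 : (T.card : ℝ) ≤ ((∑ m ∈ EE x X B, ⌊κ * √(X : ℝ) / √(m : ℝ)⌋₊ : ℕ) : ℝ) := by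
      exact_mod_cast h2
    linarith
  have hE0 : 0 ≤ ∑ m ∈ EE x X B, 1 / √(m : ℝ) := sum_nonneg fun m _ => by positivity
  set E : ℝ := ∑ m ∈ EE x X B, 1 / √(m : ℝ) with hE
  have hcr : (S.card : ℝ) ≤ (⌊√(5 * (X : ℝ))⌋₊ : ℝ) * W.card := by exact_mod_cast hc
  have h1 : (⌊√(5 * (X : ℝ))⌋₊ : ℝ) ≤ √(5 * (X : ℝ)) := Nat.floor_le (Real.sqrt_nonneg _)
  have h5 : √(5 * (X : ℝ)) = √5 * √(X : ℝ) := Real.sqrt_mul (by norm_num) _
  have h6 : √(5 : ℝ) ≤ 9 / 4 := by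
    rw [Real.sqrt_le_left (by norm_num)]
    norm_num
  have h4 : √(X : ℝ) * √(X : ℝ) = X := Real.mul_self_sqrt hX0
  calc (S.card : ℝ) ≤ (⌊√(5 * (X : ℝ))⌋₊ : ℝ) * W.card := hcr
    _ ≤ (√5 * √(X : ℝ)) * (4 * (κ * √(X : ℝ) * E)) := by
        rw [← h5]
        exact mul_le_mul h1 hWc (Nat.cast_nonneg _) (Real.sqrt_nonneg _)
    _ = √5 * (4 * κ * (√(X : ℝ) * √(X : ℝ)) * E) := by ring
    _ = √5 * (4 * κ * X * E) := by rw [h4]
    _ ≤ 9 / 4 * (4 * κ * X * E) := mul_le_mul_of_nonneg_right h6 (by positivity)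
    _ = _ := by ring

end Pool.Agent.J4H46.HD
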