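import Pool.Agent.N998.CT.Quart

set_option autoImplicit false

/-! The discriminant is small compared with the degree. -/

namespace Pool.Agent.J4H46.HD

open Pool.Agent.N998.CT Pool.Agent.R920.CH Pool.Agent.R852.BC

/-- The ratio of the real roots. -/
theorem ratio (α β z p q : ℤ) (hp : p = α + β) (hq : q = α * β + z) (hβ : 0 ≤ β)
    (hβα : β ≤ α) (hz : 0 < z) (hD : 4 * q ≤ p ^ 2) (n : ℕ)
    (h : α * seg p q n ≤ seg p q (n + 1)) :
    ∃ x y : ℝ, 0 < y ∧ y ≤ x ∧ (p : ℝ) = x + y ∧ (q : ℝ) = x * y ∧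
      x ^ n ≤ (p : ℝ) ^ 2 * y ^ n := by
  have hq0 : 0 < q := by
    have : 0 ≤ α * β := mul_nonneg (hβ.trans hβα) hβ
    linarith
  have hq0r : (0 : ℝ) < q := by exact_mod_cast hq0
  have hDr : (4 : ℝ) * q ≤ (p : ℝ) ^ 2 := by exact_mod_cast hD
  have hp0 : (0 : ℝ) ≤ p := by
    have : 0 ≤ p := by omega
    exact_mod_cast this
  have hzr : (1 : ℝ) ≤ z := by exact_mod_cast hz
  have hαβ : (β : ℝ) ≤ α := by exact_mod_cast hβα
  have hβr : (0 : ℝ) ≤ β := by exact_mod_cast hβ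
  have hpr : (p : ℝ) = α + β := by exact_mod_cast hp
  have hqr : (q : ℝ) = α * β + z := by exact_mod_cast hq
  set s : ℝ := Real.sqrt ((p : ℝ) ^ 2 - 4 * q) with hs
  have hs0 : 0 ≤ s := Real.sqrt_nonneg _
  have hs2 : s ^ 2 = (p : ℝ) ^ 2 - 4 * q := Real.sq_sqrt (by linarith)
  have hsp : s < p := by
    apply lt_of_pow_lt_pow_left₀ 2 hp0
    linarith
  set x : ℝ := ((p : ℝ) + s) / 2 with hx
  set y : ℝ := ((p : ℝ) - s) / 2 with hy
  have hx0 : 0 ≤ x := by positivity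
  have hy0 : 0 < y := by rw [hy]; linarith
  have hyx : y ≤ x := by rw [hx, hy]; linarith
  have hxy : (p : ℝ) = x + y := by rw [hx, hy]; ring
  have hxyq : (q : ℝ) = x * y := by
    rw [hx, hy]; nlinarith
  refine ⟨x, y, hy0, hyx, hxy, hxyq, ?_⟩
  set H : ℝ := (seg p q n : ℝ) with hH
  have hlow : ∀ j : ℕ, x ^ j ≤ seg p q j := by
    intro j
    induction j with
    | zero => simp [seg]
    | succ j ih =>
      rw [real_succ x y p q hxy hxyq j, pow_succ, mul_comm]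
      have h1 : x * x ^ j ≤ x * (seg p q j : ℝ) := mul_le_mul_of_nonneg_left ih hx0
      have h2 : 0 ≤ y ^ (j + 1) := by positivity
      linarith
  have hHx : x ^ n ≤ H := hlow n
  have hr : (α : ℝ) * H ≤ seg p q (n + 1) := by
    rw [hH]; exact_mod_cast h
  have h1 := real_succ x y p q hxy hxyq n
  rw [← hH] at h1
  have hA : (α - x) * H ≤ y ^ (n + 1) := by linarith
  have hAB : ((α : ℝ) - x) * (α - y) = z := by
    have e : ((α : ℝ) - x) * (α - y) = α ^ 2 - (x + y) * α + x * y := by ring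
    rw [e, ← hxy, ← hxyq, hpr, hqr]
    ring
  have hBpos : 0 < (α : ℝ) - y := by
    have h3 : y ≤ α := by
      rw [hy]; linarith
    rcases eq_or_lt_of_le h3 with h4 | h4
    · rw [← h4, sub_self, mul_zero] at hAB
      linarith
    · linarith
  have hApos : 0 < (α : ℝ) - x := by
    by_contra hcon
    push Not at hcon
    have : ((α : ℝ) - x) * (α - y) ≤ 0 := mul_nonpos_of_nonpos_of_nonneg hcon hBpos.le
    linarith
  have hxn : 0 ≤ x ^ n := by positivity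
  have hyn : 0 ≤ y ^ n := by positivity
  have h2 : x ^ n ≤ (α - y) * y ^ (n + 1) := by
    calc x ^ n = 1 * x ^ n := by ring
      _ ≤ z * x ^ n := mul_le_mul_of_nonneg_right hzr hxn
      _ = (α - y) * ((α - x) * x ^ n) := by rw [← hAB]; ring
      _ ≤ (α - y) * ((α - x) * H) :=
          mul_le_mul_of_nonneg_left (mul_le_mul_of_nonneg_left hHx hApos.le) hBpos.le
      _ ≤ (α - y) * y ^ (n + 1) := mul_le_mul_of_nonneg_left hA hBpos.le
  have h3 : (α - y) * y ≤ (p : ℝ) * p := by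
    apply mul_le_mul _ _ hy0.le hp0
    · linarith
    · linarith
  calc x ^ n ≤ (α - y) * y ^ (n + 1) := h2
    _ = ((α - y) * y) * y ^ n := by ring
    _ ≤ ((p : ℝ) * p) * y ^ n := mul_le_mul_of_nonneg_right h3 hyn
    _ = (p : ℝ) ^ 2 * y ^ n := by ring

/-- The unstable case: `D (N - 3)² ≤ 16 (log d)² d`. -/
theorem disc_pos (N : ℕ) (hN : 4 ≤ N) (c₁ d a b : ℤ) (hb : 0 < b) (hba : b ≤ a)
    (hab : a + b = c₁) (hz : 0 < d - a * b) (hD : 4 * d ≤ c₁ ^ 2)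
    (h : ∀ j : ℕ, j + 3 ≤ N →
      (a - 1) * seg (c₁ - 2) (d - c₁ + 1) j ≤ seg (c₁ - 2) (d - c₁ + 1) (j + 1))
    (hlog : 4 * Real.log d ≤ (N : ℝ) - 3) :
    ((N : ℤ) - 2) ^ 2 < d ∧ 0 < c₁ ∧ c₁ ≤ d ∧
      ((c₁ : ℝ) ^ 2 - 4 * d) * ((N : ℝ) - 3) ^ 2 ≤ 16 * Real.log d ^ 2 * d := by
  obtain ⟨n, rfl⟩ : ∃ n, N = n + 3 := ⟨N - 3, by omega⟩
  have hn1 : 1 ≤ n := by omega
  have hq1 : d - c₁ + 1 = (a - 1) * (b - 1) + (d - a * b) := by rw [← hab]; ring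
  have hmain := main_ineq (a - 1) (b - 1) (d - a * b) (c₁ - 2) (d - c₁ + 1)
    (by linarith) hq1 (by linarith) (by linarith) hz
    (by linarith) n (h n le_rfl)
  have hn : (1 : ℤ) ≤ n := by exact_mod_cast hn1
  have hq2 : ((n : ℤ) + 1) ^ 2 ≤ d - c₁ + 1 := by nlinarith
  have hc₁ : 0 < c₁ := by linarith
  have hcd : c₁ ≤ d := by nlinarith
  have hNz : ((n + 3 : ℕ) : ℤ) - 2 = n + 1 := by push_cast; ring
  refine ⟨by rw [hNz]; linarith, hc₁, hcd, ?_⟩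
  have hNr : ((n + 3 : ℕ) : ℝ) - 3 = n := by push_cast; ring
  rw [hNr] at hlog ⊢
  obtain ⟨x, y, hy0, hyx, hpxy, hqxy, hpow⟩ := ratio (a - 1) (b - 1) (d - a * b) (c₁ - 2)
    (d - c₁ + 1) (by linarith) hq1 (by linarith) (by linarith) hz (by linarith) n (h n le_rfl)
  have hd1 : 1 ≤ d := by linarith
  have hdr : (1 : ℝ) ≤ d := by exact_mod_cast hd1
  have hcdr : (c₁ : ℝ) ≤ d := by exact_mod_cast hcd
  have hc0r : (0 : ℝ) < c₁ := by exact_mod_cast hc₁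
  push_cast at hpxy hqxy hpow
  have hnr : (0 : ℝ) < n := by exact_mod_cast hn1
  have hx0 : 0 < x := lt_of_lt_of_le hy0 hyx
  have hl0 : 0 ≤ Real.log d := Real.log_nonneg hdr
  -- the ratio
  have hp0 : 0 < (c₁ : ℝ) - 2 := by rw [hpxy]; positivity
  have hR : (x / y) ^ n ≤ (d : ℝ) ^ 2 := by
    rw [div_pow, div_le_iff₀ (by positivity)]
    refine hpow.trans ?_
    apply mul_le_mul_of_nonneg_right _ (by positivity)
    apply pow_le_pow_left₀ hp0.le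
    linarith
  have hR1 : 0 < x / y := by positivity
  have hlogR : n * Real.log (x / y) ≤ 2 * Real.log d := by
    have h1 := Real.log_le_log (by positivity) hR
    rw [Real.log_pow, Real.log_pow] at h1
    exact_mod_cast h1
  set Λ : ℝ := 2 * Real.log d / n with hΛ
  have hΛ0 : 0 ≤ Λ := by positivity
  have hΛ1 : Λ ≤ 1 / 2 := by
    rw [hΛ, div_le_iff₀ hnr]
    linarith
  have hlogR2 : Real.log (x / y) ≤ Λ := by
    rw [hΛ, le_div_iff₀ hnr, mul_comm]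
    exact hlogR
  have hRexp : x / y ≤ Real.exp Λ := (Real.log_le_iff_le_exp hR1).1 hlogR2
  have hexp : Real.exp Λ ≤ 1 + 2 * Λ := by
    have h1 : 1 - Λ ≤ Real.exp (-Λ) := by
      have := Real.add_one_le_exp (-Λ)
      linarith
    have h2 : Real.exp Λ * Real.exp (-Λ) = 1 := by
      rw [← Real.exp_add, add_neg_cancel, Real.exp_zero]
    have h3 : 0 < Real.exp Λ := Real.exp_pos _
    have h4 : Real.exp Λ * (1 - Λ) ≤ 1 :=
      (mul_le_mul_of_nonneg_left h1 h3.le).trans_eq h2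
    by_contra hcon
    push Not at hcon
    have h5 : (1 + 2 * Λ) * (1 - Λ) < Real.exp Λ * (1 - Λ) :=
      mul_lt_mul_of_pos_right hcon (by linarith)
    nlinarith
  have hxle : x ≤ (1 + 2 * Λ) * y := by
    have h1 := hRexp.trans hexp
    rwa [div_le_iff₀ hy0] at h1
  have hdiff : x - y ≤ 2 * Λ * y := by linarith
  have hyq : y ^ 2 ≤ d := by
    have h1 : y ^ 2 ≤ x * y := by nlinarith
    have h2 : x * y ≤ d := by rw [← hqxy]; linarith
    linarith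
  have hD2 : (c₁ : ℝ) ^ 2 - 4 * d = (x - y) ^ 2 := by
    have h1 : (x - y) ^ 2 = (x + y) ^ 2 - 4 * (x * y) := by ring
    rw [h1, ← hpxy, ← hqxy]
    ring
  rw [hD2]
  have h1 : (x - y) ^ 2 ≤ (2 * Λ * y) ^ 2 := pow_le_pow_left₀ (by linarith) hdiff 2
  have h2 : (2 * Λ * y) ^ 2 * (n : ℝ) ^ 2 = 16 * Real.log d ^ 2 * y ^ 2 := by
    rw [hΛ]
    field_simp
    ring
  calc (x - y) ^ 2 * (n : ℝ) ^ 2 ≤ (2 * Λ * y) ^ 2 * (n : ℝ) ^ 2 :=
        mul_le_mul_of_nonneg_right h1 (by positivity)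
    _ = 16 * Real.log d ^ 2 * y ^ 2 := h2
    _ ≤ 16 * Real.log d ^ 2 * d := mul_le_mul_of_nonneg_left hyq (by positivity)

/-- The stable case: `(N - 1)² |D| ≤ 49 d`. -/
theorem disc_neg (N : ℕ) (hN : 12 ≤ N) (c₁ d : ℤ)
    (hseg : ∀ j : ℕ, j + 2 ≤ N → 0 ≤ seg (c₁ - 2) (d - c₁ + 1) j) (hD : c₁ ^ 2 < 4 * d) :
    0 < c₁ ∧ ((N : ℤ) - 1) ^ 2 * (4 * d - c₁ ^ 2) ≤ 49 * d := by
  have hD' : (c₁ - 2) ^ 2 < 4 * (d - c₁ + 1) := by linarith
  obtain ⟨hp, hs⟩ := sector11 (c₁ - 2) (d - c₁ + 1) hD' (N - 1) (by omega)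
    (fun j hj => hseg j (by omega))
  have e2 : 4 * (d - c₁ + 1) - (c₁ - 2) ^ 2 = 4 * d - c₁ ^ 2 := by ring
  rw [e2] at hs
  refine ⟨by linarith, ?_⟩
  have hN1 : ((N - 1 : ℕ) : ℤ) = (N : ℤ) - 1 := by
    rw [Nat.cast_sub (by omega)]; norm_num
  rw [hN1] at hs
  have hc1sq : (c₁ - 2) ^ 2 ≤ c₁ ^ 2 := by nlinarith
  have h1 : c₁ ^ 2 ≤ 4 * d := by linarith
  nlinarith

end Pool.Agent.J4H46.HD
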