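import Pool.Agent.R503.PS.Low

set_option autoImplicit false

/-! The structure of integers which are squares modulo all small primes, many prime divisors allowed. -/

namespace Pool.Agent.J4H46.HD

open Finset Filter Topology Pool.Agent.R503.PS

/-- powers of logarithms are small -/
lemma log_pow_rpow (K : ℕ) (c : ℝ) {θ : ℝ} (hθ : 0 < θ) :
    ∀ᶠ x : ℕ in atTop, c * Real.log x ^ K ≤ (x : ℝ) ^ θ := by
  have h2 := isLittleO_log_rpow_rpow_atTop (K : ℝ) hθ
  have h3 := h2.bound (show (0 : ℝ) < 1 / (|c| + 1) by positivity)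
  have h4 := (tendsto_natCast_atTop_atTop (R := ℝ)).eventually h3
  filter_upwards [h4, eventually_ge_atTop 1] with x hx hx1
  have hx1' : (1 : ℝ) ≤ x := by exact_mod_cast hx1
  have h5 : (0 : ℝ) ≤ Real.log x := Real.log_nonneg hx1'
  rw [Real.rpow_natCast, Real.norm_of_nonneg (by positivity), Real.norm_of_nonneg (by positivity),
    one_div, inv_mul_eq_div, le_div_iff₀ (by positivity)] at hx
  have h6 : c ≤ |c| + 1 := by have := le_abs_self c; linarith
  calc c * Real.log x ^ K ≤ (|c| + 1) * Real.log x ^ K :=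
        mul_le_mul_of_nonneg_right h6 (by positivity)
    _ ≤ (x : ℝ) ^ θ := by rw [mul_comm]; exact hx

/-- many primes in a residue class -/
lemma win_large' (B : ℕ) : ∀ᶠ x : ℕ in atTop, ∀ b q a : ℕ, (b : ℝ) ≤ (x : ℝ) ^ (1 / 2 : ℝ) →
    1 ≤ q → (q : ℝ) ≤ Real.log x ^ B → a.Coprime q → b < (win x q a).card := by
  obtain ⟨x₀, hx₀⟩ := ap_window B
  filter_upwards [eventually_ge_atTop x₀, log_pow_rpow (B + 2) 2 (show (0 : ℝ) < 1 / 2 by norm_num),
    log_large 1, eventually_ge_atTop 1] with x hx h1 h2 h3 b q a hb hq hqB hqa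
  have h4 := hx₀ x hx q a hq hqB hqa
  have hx1 : (1 : ℝ) ≤ x := by exact_mod_cast h3
  have hx0 : (0 : ℝ) < x := by linarith
  have hl : 0 < Real.log x ^ (B + 2) := by
    have : 0 < Real.log (x : ℝ) := by linarith
    positivity
  have hs : (x : ℝ) ^ (1 / 2 : ℝ) * (x : ℝ) ^ (1 / 2 : ℝ) = x := by
    rw [← Real.rpow_add hx0]; norm_num
  have hs1 : (1 : ℝ) ≤ (x : ℝ) ^ (1 / 2 : ℝ) := Real.one_le_rpow hx1 (by norm_num)
  have h5 : ((b : ℝ) + 1) ≤ x / Real.log x ^ (B + 2) := by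
    rw [le_div_iff₀ hl]
    have h6 : ((b : ℝ) + 1) ≤ 2 * (x : ℝ) ^ (1 / 2 : ℝ) := by linarith
    calc ((b : ℝ) + 1) * Real.log x ^ (B + 2) ≤ 2 * (x : ℝ) ^ (1 / 2 : ℝ) * Real.log x ^ (B + 2) :=
          mul_le_mul_of_nonneg_right h6 hl.le
      _ = (x : ℝ) ^ (1 / 2 : ℝ) * (2 * Real.log x ^ (B + 2)) := by ring
      _ ≤ (x : ℝ) ^ (1 / 2 : ℝ) * (x : ℝ) ^ (1 / 2 : ℝ) :=
          mul_le_mul_of_nonneg_left h1 (by positivity)
      _ = x := hs
  have h6 : (b : ℝ) + 1 ≤ (win x q a).card := h5.trans h4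
  have h7 : b + 1 ≤ (win x q a).card := by exact_mod_cast h6
  omega

theorem small_d' (B : ℕ) : ∀ᶠ x : ℕ in atTop, ∀ b d : ℕ, (b : ℝ) ≤ (x : ℝ) ^ (1 / 2 : ℝ) →
    Odd d → Squarefree d → 1 < d → (d : ℝ) ≤ Real.log x ^ B → ¬ Few x b d := by
  filter_upwards [win_large' (B + 1), log_large 8] with x hx hl b d hb hodd hsq hd hdB hfew
  set p := d.minFac with hp
  have hpp : p.Prime := Nat.minFac_prime (by omega)
  obtain ⟨r, hr⟩ := Nat.minFac_dvd d
  have hcop : Nat.Coprime p r := Nat.coprime_of_squarefree_mul (hr ▸ hsq)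
  obtain ⟨a, ha, hja⟩ := Pool.Agent.H591R2.exists_jacobi_neg_one hodd hpp hr hcop
  have hd8 : Nat.Coprime d 8 := by
    have : Nat.Coprime d 2 := Nat.coprime_two_right.2 hodd
    exact Nat.Coprime.pow_right 3 this
  obtain ⟨c, hc1, hc2⟩ := Nat.chineseRemainder hd8 a 1
  have hcd : Nat.Coprime c d := by
    rw [Nat.Coprime, hc1.gcd_eq]
    exact ha
  have hc8 : Nat.Coprime c 8 := by
    rw [Nat.Coprime, hc2.gcd_eq]
    norm_num
  have hcop' : Nat.Coprime c (8 * d) := Nat.Coprime.mul_right hc8 hcd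
  have hq : ((8 * d : ℕ) : ℝ) ≤ Real.log x ^ (B + 1) := by
    push_cast
    calc (8 : ℝ) * d ≤ Real.log x * Real.log x ^ B :=
          mul_le_mul hl hdB (Nat.cast_nonneg _) (by linarith)
      _ = Real.log x ^ (B + 1) := by ring
  have h1 := hx b (8 * d) c hb (by omega) hq hcop'
  have h2 : win x (8 * d) c ⊆ (PP x).filter fun p : ℕ => jacobiSym (p : ℤ) d ≠ 1 := by
    intro q hq
    unfold win at hq
    rw [mem_filter, mem_Ioc] at hq
    have e8 : q ≡ 1 [MOD 8] := (Nat.ModEq.of_mul_right d hq.2.2).trans hc2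
    have ed : q ≡ a [MOD d] := (Nat.ModEq.of_mul_left 8 hq.2.2).trans hc1
    rw [mem_filter, mem_PP]
    refine ⟨⟨hq.1, hq.2.1, e8⟩, ?_⟩
    have h3 : jacobiSym (q : ℤ) d = jacobiSym (a : ℤ) d := by
      apply jacobiSym.mod_left'
      exact_mod_cast ed
    rw [h3, hja]
    norm_num
  have h3 := card_le_card h2
  unfold Few at hfew
  omega

theorem unit_window' : ∀ᶠ x : ℕ in atTop, ∀ (b : ℕ) (u : ℤ), (b : ℝ) ≤ (x : ℝ) ^ (1 / 2 : ℝ) →
    (u = -1 ∨ u = 2 ∨ u = -2) → b < (neg x u).card := by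
  filter_upwards [win_large' 1, log_large 8] with x hx hl b u hb hu
  have h8 : ((8 : ℕ) : ℝ) ≤ Real.log x ^ 1 := by rw [pow_one]; exact_mod_cast hl
  have h3 := hx b 8 3 hb (by norm_num) h8 (by norm_num)
  have h5 := hx b 8 5 hb (by norm_num) h8 (by norm_num)
  have hodd : ∀ p a : ℕ, p ≡ a [MOD 8] → a % 2 = 1 → Odd p := by
    intro p a hp ha
    rw [Nat.odd_iff]
    unfold Nat.ModEq at hp
    omega
  rcases hu with rfl | rfl | rfl
  · refine h3.trans_le (card_le_card fun p hp => ?_)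
    unfold win at hp
    rw [mem_filter] at hp
    unfold neg
    rw [mem_filter]
    refine ⟨hp.1, hp.2.1, ?_⟩
    rw [jacobiSym.at_neg_one (hodd p 3 hp.2.2 (by norm_num))]
    apply ZMod.χ₄_nat_three_mod_four
    have := hp.2.2
    unfold Nat.ModEq at this
    omega
  · refine h3.trans_le (card_le_card fun p hp => ?_)
    unfold win at hp
    rw [mem_filter] at hp
    unfold neg
    rw [mem_filter]
    refine ⟨hp.1, hp.2.1, ?_⟩
    rw [jacobiSym.at_two (hodd p 3 hp.2.2 (by norm_num)), ZMod.χ₈_nat_eq_if_mod_eight]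
    have := hp.2.2
    unfold Nat.ModEq at this
    rw [if_neg (by omega), if_neg (by omega)]
  · refine h5.trans_le (card_le_card fun p hp => ?_)
    unfold win at hp
    rw [mem_filter] at hp
    unfold neg
    rw [mem_filter]
    refine ⟨hp.1, hp.2.1, ?_⟩
    rw [jacobiSym.at_neg_two (hodd p 5 hp.2.2 (by norm_num)), ZMod.χ₈'_nat_eq_if_mod_eight]
    have := hp.2.2
    unfold Nat.ModEq at this
    rw [if_neg (by omega), if_neg (by omega)]

/-- the number of prime divisors -/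
lemma dvd_card' {X : ℕ} (T : Finset ℕ) (hT : ∀ p ∈ T, p.Prime) {D : ℤ}
    (hD0 : D ≠ 0) (hD : D.natAbs ≤ X) (hdiv : ∀ p ∈ T, (p : ℤ) ∣ D) : T.card ≤ Nat.log 2 X := by
  have h1 : (∏ p ∈ T, p) ∣ D.natAbs := by
    apply Finset.prod_primes_dvd
    · intro p hp
      exact (hT p hp).prime
    · intro p hp
      exact Int.natCast_dvd.1 (hdiv p hp)
  have h2 : ∏ p ∈ T, p ≤ X := (Nat.le_of_dvd (Int.natAbs_pos.2 hD0) h1).trans hD
  have h3 : 2 ^ T.card ≤ X := by
    calc 2 ^ T.card = ∏ _p ∈ T, 2 := by rw [prod_const]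
      _ ≤ ∏ p ∈ T, p := prod_le_prod' fun p hp => (hT p hp).two_le
      _ ≤ X := h2
  exact Nat.le_log_of_pow_le (by norm_num) h3

theorem struct' (B : ℕ) : ∀ᶠ x : ℕ in atTop, ∀ X : ℕ,
    (Nat.log 2 X : ℝ) ≤ (x : ℝ) ^ (1 / 2 : ℝ) → ∀ D : ℤ, ¬ IsSquare D → D.natAbs ≤ X →
    Sq (x + 1) D → ∃ (u : ℤ) (d f : ℕ), (u = 1 ∨ u = -1 ∨ u = 2 ∨ u = -2) ∧
      D = u * d * (f : ℤ) ^ 2 ∧ Odd d ∧ Squarefree d ∧ 0 < f ∧ Few x (Nat.log 2 X) d ∧
      Real.log x ^ B < d := by
  filter_upwards [small_d' B, unit_window', eventually_ge_atTop 4] with x hsd hun hx4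
    X hXx D hD hDX hS
  have hD0 : D ≠ 0 := by
    rintro rfl
    exact hD ⟨0, by norm_num⟩
  obtain ⟨u, d, f, hu, hDe, hodd, hsq, hf⟩ := decompose D hD0
  -- the value of the symbol at a prime not dividing `D`
  have hval : ∀ p : ℕ, p.Prime → p ≠ 2 → p < x + 1 → ¬ (p : ℤ) ∣ D →
      jacobiSym u p * jacobiSym d p = 1 := by
    intro p hp hp2' hpx hpD
    obtain ⟨t, ht⟩ := hS p hp hp2' hpx
    have h1 := jac_D hp hpD ht
    rw [hDe, jacobiSym.mul_left, jacobiSym.mul_left] at h1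
    have h2 : jacobiSym ((f : ℤ) ^ 2) p = 1 := by
      apply jacobiSym.sq_one'
      have h3 : ¬ (p : ℤ) ∣ (f : ℤ) := by
        intro h
        apply hpD
        rw [hDe]
        exact dvd_mul_of_dvd_right (dvd_pow h two_ne_zero) _
      rw [Int.gcd_comm]
      exact (Int.isCoprime_iff_gcd_eq_one.1
        ((Nat.prime_iff_prime_int.1 hp).irreducible.coprime_iff_not_dvd.2 h3))
    rw [h2, mul_one] at h1
    exact h1
  have hfew : Few x (Nat.log 2 X) d := by
    unfold Few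
    refine dvd_card' _ ?_ hD0 hDX ?_
    · intro p hp
      rw [mem_filter, mem_PP] at hp
      exact hp.1.2.1
    · intro p hp
      rw [mem_filter, mem_PP] at hp
      by_contra hpD
      apply hp.2
      have hp2' : p ≠ 2 := by
        rintro rfl
        have := hp.1.2.2
        omega
      have hpodd : Odd p := hp.1.2.1.odd_of_ne_two hp2'
      have h1 := hval p hp.1.2.1 hp2' (by omega) hpD
      have h8 := hp.1.2.2
      have hju : jacobiSym u p = 1 := by
        rcases hu with rfl | rfl | rfl | rfl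
        · exact jacobiSym.one_left p
        · rw [jacobiSym.at_neg_one hpodd]
          exact ZMod.χ₄_nat_one_mod_four (by omega)
        · rw [jacobiSym.at_two hpodd, ZMod.χ₈_nat_eq_if_mod_eight, if_neg (by omega),
            if_pos (by omega)]
        · rw [jacobiSym.at_neg_two hpodd, ZMod.χ₈'_nat_eq_if_mod_eight, if_neg (by omega),
            if_pos (by omega)]
      rw [hju, one_mul] at h1
      rw [← jacobiSym.quadratic_reciprocity_one_mod_four' hodd (by omega : p % 4 = 1)]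
      exact h1
  refine ⟨u, d, f, hu, hDe, hodd, hsq, hf, hfew, ?_⟩
  by_contra hle
  rw [not_lt] at hle
  have hd0 : d ≠ 0 := by
    rintro rfl
    exact (Nat.not_odd_iff_even.2 (by decide : Even 0)) hodd
  rcases Nat.lt_or_ge 1 d with h1 | h1
  · exact hsd _ d hXx hodd hsq h1 hle hfew
  have hd1 : d = 1 := by omega
  have hu1 : u ≠ 1 := by
    rintro rfl
    apply hD
    refine ⟨f, ?_⟩
    rw [hDe, hd1]
    push_cast
    ring
  have hu' : u = -1 ∨ u = 2 ∨ u = -2 := by tauto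
  have h2 := hun _ u hXx hu'
  have h3 : (neg x u).card ≤ Nat.log 2 X := by
    refine dvd_card' _ ?_ hD0 hDX ?_
    · intro p hp
      unfold neg at hp
      rw [mem_filter] at hp
      exact hp.2.1
    · intro p hp
      unfold neg at hp
      rw [mem_filter] at hp
      by_contra hpD
      have hpx := mem_Ioc.1 hp.1
      have hp2' : p ≠ 2 := by
        intro h
        have : 2 ≤ x / 2 := by omega
        omega
      have h4 := hval p hp.2.1 hp2' (by omega) hpD
      rw [hp.2.2, hd1] at h4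
      rw [Nat.cast_one, jacobiSym.one_left] at h4
      norm_num at h4
  omega

end Pool.Agent.J4H46.HD
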