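import Pool.Agent.J4H46.HD.Cnt

set_option autoImplicit false

/-! Almost all degrees: conclusion. -/

namespace Pool.Agent.J4H46.HD

open Finset Filter Topology Pool.Agent.R503.PS Pool.Agent.N998.CT Pool.Agent.R920.CH

lemma natlog_le (X : ℕ) (hX : 1 ≤ X) : (Nat.log 2 X : ℝ) ≤ 2 * Real.log X := by
  have h1 : 2 ^ Nat.log 2 X ≤ X := Nat.pow_log_le_self 2 (by omega)
  have h2 : ((2 : ℝ) ^ Nat.log 2 X) ≤ X := by exact_mod_cast h1
  have h3 := Real.log_le_log (by positivity) h2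
  rw [Real.log_pow] at h3
  have h4 := Real.log_two_gt_d9
  have h5 : (Nat.log 2 X : ℝ) * (1 / 2) ≤ Nat.log 2 X * Real.log 2 :=
    mul_le_mul_of_nonneg_left (by linarith) (Nat.cast_nonneg _)
  linarith

/-- **Counting the degrees.** -/
theorem main (ε : ℝ) (hε : 0 < ε) (U : ℕ) : ∃ N₀ : ℕ, ∀ N : ℕ, N₀ ≤ N → ∀ X : ℕ, 2 ≤ X →
    Real.log X ^ (2 + ε) ≤ N →
    (∀ S : Finset ℕ, (∀ d ∈ S, 1 ≤ d ∧ d ≤ X ∧ ∃ c : ℤ, Cond N c d ∧
      ¬ IsSquare (c ^ 2 - 4 * (d : ℤ))) →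
      (S.card : ℝ) * Real.log N ^ U ≤ X * Real.log X / N) ∧
    (∀ d : ℕ, 1 ≤ d → d ≤ X → ∀ c : ℤ, Cond N c d → IsSquare (c ^ 2 - 4 * (d : ℤ)) →
      ∃ b e : ℕ, 1 ≤ b ∧ d = b * (b + e) ∧ c = 2 * b + e ∧
        (e : ℝ) ≤ 12 * √(X : ℝ) * Real.log X / N ∧ e ^ 2 ≤ d ∧ 4 ≤ d) ∧
    (∀ S : Finset ℕ, (∀ d ∈ S, 1 ≤ d ∧ d ≤ X ∧ ∃ c : ℤ, Cond N c d) →
      (S.card : ℝ) ≤ 16 * X * Real.log X / N) := by
  classical
  obtain ⟨A, hA⟩ : ∃ A : ℝ, A = 2 + ε := ⟨_, rfl⟩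
  have hA2 : 2 < A := by rw [hA]; linarith
  have hA0 : 0 < A := by linarith
  have hAi : 1 / A < 1 / 2 := one_div_lt_one_div_of_lt (by norm_num) hA2
  have hAi0 : 0 < 1 / A := by positivity
  obtain ⟨x₀, hx₀⟩ := eventually_atTop.1 ((sum_small A hA2 (U + 1)).and
    ((nonsquare_count (2 * (U + 1 + 10))).and ((log_large (108 * 2 ^ U)).and
      ((ev_pow 4 (show 0 < 1 / 2 - 1 / A by linarith)).and (eventually_ge_atTop 1000)))))
  refine ⟨x₀ + 1, fun N hN X hX hlogX => ?_⟩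
  obtain ⟨x, rfl⟩ : ∃ x, N = x + 1 := ⟨N - 1, by omega⟩
  obtain ⟨hsum, hnon, hl, h4, hx1000⟩ := hx₀ x (by omega)
  rw [← hA] at hlogX
  have hxr : (1000 : ℝ) ≤ x := by exact_mod_cast hx1000
  have hx0 : (0 : ℝ) < x := by linarith
  have hXr : (2 : ℝ) ≤ X := by exact_mod_cast hX
  have hX0 : (0 : ℝ) < X := by linarith
  have hL1 : (0.69 : ℝ) ≤ Real.log X := by
    have h1 := Real.log_le_log (by norm_num) hXr
    have h2 := Real.log_two_gt_d9
    linarith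
  set L : ℝ := Real.log X with hL
  have hL0 : 0 < L := by linarith
  set l : ℝ := Real.log x with hldef
  have hNr : ((x + 1 : ℕ) : ℝ) = (x : ℝ) + 1 := by push_cast; ring
  rw [hNr] at hlogX ⊢
  -- `log X ≤ N ^ (1 / A)`
  have hLA : L ≤ ((x : ℝ) + 1) ^ (1 / A) := by
    have h1 : (L ^ A) ^ (1 / A) ≤ ((x : ℝ) + 1) ^ (1 / A) :=
      Real.rpow_le_rpow (by positivity) hlogX hAi0.le
    rwa [← Real.rpow_mul hL0.le, mul_one_div, div_self hA0.ne', Real.rpow_one] at h1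
  have hLx : L ≤ 2 * (x : ℝ) ^ (1 / A) := by
    refine hLA.trans ?_
    calc ((x : ℝ) + 1) ^ (1 / A) ≤ (2 * (x : ℝ)) ^ (1 / A) :=
          Real.rpow_le_rpow (by positivity) (by linarith) hAi0.le
      _ = 2 ^ (1 / A) * (x : ℝ) ^ (1 / A) := by rw [Real.mul_rpow (by norm_num) hx0.le]
      _ ≤ 2 * (x : ℝ) ^ (1 / A) := by
          apply mul_le_mul_of_nonneg_right _ (by positivity)
          calc (2 : ℝ) ^ (1 / A) ≤ 2 ^ (1 : ℝ) :=
                Real.rpow_le_rpow_of_exponent_le (by norm_num) (by linarith)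
            _ = 2 := Real.rpow_one 2
  have hLs : 2 * L ≤ (x : ℝ) ^ (1 / 2 : ℝ) := by
    have h1 : (x : ℝ) ^ (1 / 2 : ℝ) = (x : ℝ) ^ (1 / 2 - 1 / A) * (x : ℝ) ^ (1 / A) := by
      rw [← Real.rpow_add hx0]; congr 1; ring
    rw [h1]
    have h2 : 0 ≤ (x : ℝ) ^ (1 / A) := by positivity
    nlinarith
  have hbx : (Nat.log 2 X : ℝ) ≤ (x : ℝ) ^ (1 / 2 : ℝ) :=
    (natlog_le X (by omega)).trans hLs
  have hss : (x : ℝ) ^ (1 / 2 : ℝ) * (x : ℝ) ^ (1 / 2 : ℝ) = x := by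
    rw [← Real.rpow_add hx0]; norm_num
  have hs30 : (30 : ℝ) ≤ (x : ℝ) ^ (1 / 2 : ℝ) := by
    by_contra hcon
    push Not at hcon
    have h1 : (0 : ℝ) ≤ (x : ℝ) ^ (1 / 2 : ℝ) := by positivity
    nlinarith
  have h30 : 30 * (2 * L) ≤ x := by
    calc 30 * (2 * L) ≤ (x : ℝ) ^ (1 / 2 : ℝ) * (x : ℝ) ^ (1 / 2 : ℝ) :=
          mul_le_mul hs30 hLs (by positivity) (by positivity)
      _ = x := hss
  -- `κ`
  set κ : ℝ := kap (x + 1) X with hκ
  have hκe : κ = 11 * L / ((x : ℝ) - 2) := by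
    rw [hκ]; unfold kap; rw [← hL]; push_cast; congr 1; ring
  have hx2 : (0 : ℝ) < (x : ℝ) - 2 := by linarith
  have hκ0 : 0 ≤ κ := by rw [hκe]; positivity
  have hκ1 : κ ≤ 1 := by
    rw [hκe, div_le_one hx2]
    linarith
  have hκ12 : κ ≤ 12 * L / ((x : ℝ) + 1) := by
    rw [hκe, div_le_div_iff₀ hx2 (by linarith)]
    nlinarith
  have hfacts : ∀ d : ℕ, 1 ≤ d → d ≤ X → ∀ c : ℤ, Cond (x + 1) c d →
      0 < c ∧ |(c : ℝ) ^ 2 - 4 * d| ≤ κ ^ 2 * d ∧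
      (0 ≤ c ^ 2 - 4 * (d : ℤ) → (((x + 1 : ℕ) : ℤ) - 2) ^ 2 < d) ∧
      Sq (x + 1) (c ^ 2 - 4 * (d : ℤ)) := by
    intro d hd1 hdX c hc
    have h := facts (N := x + 1) (X := X) (by omega) hX (by rw [hNr, ← hL]; linarith)
      (c := c) (d := (d : ℤ)) (by exact_mod_cast hd1) (by exact_mod_cast hdX) hc
    have hcast : (((d : ℕ) : ℤ) : ℝ) = (d : ℝ) := by push_cast; rfl
    rw [hcast] at h
    exact h
  -- the squares excluded
  have hpart1 : ∀ S : Finset ℕ, (∀ d ∈ S, 1 ≤ d ∧ d ≤ X ∧ ∃ c : ℤ, Cond (x + 1) c d ∧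
      ¬ IsSquare (c ^ 2 - 4 * (d : ℤ))) →
      (S.card : ℝ) * Real.log ((x : ℝ) + 1) ^ U ≤ X * L / ((x : ℝ) + 1) := by
    intro S hS
    have h1 := hnon X κ hκ0 hκ1 hbx S (by
      intro d hd
      obtain ⟨g1, g2, c, g3, g4⟩ := hS d hd
      obtain ⟨f1, f2, _, f4⟩ := hfacts d g1 g2 c g3
      exact ⟨g1, g2, c, f1, g4, f4, f2⟩)
    have h2 := hsum X hLA (EE x X (2 * (U + 1 + 10))) (by
      intro d hd
      unfold EE at hd
      rw [mem_filter, mem_range] at hd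
      exact ⟨hd.2.1, hd.2.2.1, by omega, hd.2.2.2.1, hd.2.2.2.2⟩)
    set E : ℝ := ∑ m ∈ EE x X (2 * (U + 1 + 10)), 1 / √(m : ℝ) with hE
    have hE0 : 0 ≤ E := sum_nonneg fun m _ => by positivity
    have hl0 : 0 < l := lt_of_lt_of_le (by positivity) hl
    have hlogN : Real.log ((x : ℝ) + 1) ≤ 2 * l := by
      have h3 : 2 * l = Real.log ((x : ℝ) ^ 2) := by rw [Real.log_pow, ← hldef]; norm_num
      rw [h3]
      apply Real.log_le_log (by linarith)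
      nlinarith
    have hlogN0 : 0 ≤ Real.log ((x : ℝ) + 1) := Real.log_nonneg (by linarith)
    have h3 : Real.log ((x : ℝ) + 1) ^ U ≤ 2 ^ U * l ^ U := by
      rw [← mul_pow]
      exact pow_le_pow_left₀ hlogN0 hlogN U
    have h5 : E * l ^ U ≤ 1 / l := by
      rw [le_div_iff₀ hl0]
      calc E * l ^ U * l = E * l ^ (U + 1) := by rw [pow_succ]; ring
        _ ≤ 1 := h2
    calc (S.card : ℝ) * Real.log ((x : ℝ) + 1) ^ U ≤ (9 * κ * X * E) * (2 ^ U * l ^ U) :=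
          mul_le_mul h1 h3 (by positivity) (by positivity)
      _ = 9 * 2 ^ U * (κ * X) * (E * l ^ U) := by ring
      _ ≤ 9 * 2 ^ U * (κ * X) * (1 / l) := mul_le_mul_of_nonneg_left h5 (by positivity)
      _ ≤ 9 * 2 ^ U * (12 * L / ((x : ℝ) + 1) * X) * (1 / l) := by
          apply mul_le_mul_of_nonneg_right _ (by positivity)
          apply mul_le_mul_of_nonneg_left _ (by positivity)
          exact mul_le_mul_of_nonneg_right hκ12 hX0.le
      _ = (X * L / ((x : ℝ) + 1)) * (108 * 2 ^ U / l) := by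
          field_simp
          ring
      _ ≤ (X * L / ((x : ℝ) + 1)) * 1 := by
          apply mul_le_mul_of_nonneg_left _ (by positivity)
          rw [div_le_one hl0]
          exact hl
      _ = _ := mul_one _
  refine ⟨hpart1, ?_, fun S hS => ?_⟩
  · intro d hd1 hdX c hc hsq
    obtain ⟨f1, f2, f3, _⟩ := hfacts d hd1 hdX c hc
    obtain ⟨b, e, g1, g2, g3, g4, g5⟩ := near_factors hκ0 f1 hd1 hdX hsq f2
    have hd0 : (0 : ℝ) ≤ d := Nat.cast_nonneg _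
    refine ⟨b, e, g1, g2, g5, ?_, ?_, ?_⟩
    · refine g4.trans ?_
      calc κ * √(X : ℝ) ≤ 12 * L / ((x : ℝ) + 1) * √(X : ℝ) :=
            mul_le_mul_of_nonneg_right hκ12 (Real.sqrt_nonneg _)
        _ = _ := by ring
    · have h1 : ((c : ℝ) ^ 2 - 4 * d) = (e : ℝ) ^ 2 := by
        have h2 : c ^ 2 - 4 * (d : ℤ) = (e : ℤ) ^ 2 := by
          rw [g5, g2]; push_cast; ring
        exact_mod_cast h2
      rw [h1, abs_of_nonneg (by positivity)] at f2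
      have h3 : κ ^ 2 * (d : ℝ) ≤ 1 * d :=
        mul_le_mul_of_nonneg_right (pow_le_one₀ hκ0 hκ1) hd0
      have h4 : (e : ℝ) ^ 2 ≤ d := by linarith
      exact_mod_cast h4
    · have h1 := f3 hsq.nonneg
      have h2 : (1000 : ℤ) ≤ x := by exact_mod_cast hx1000
      push_cast at h1
      have h3 : (4 : ℤ) ≤ d := by nlinarith
      exact_mod_cast h3
  set S₁ := S.filter fun d : ℕ => ∃ c : ℤ, Cond (x + 1) c d ∧ ¬ IsSquare (c ^ 2 - 4 * (d : ℤ))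
    with hS₁
  set S₂ := S.filter fun d : ℕ => ¬ ∃ c : ℤ, Cond (x + 1) c d ∧ ¬ IsSquare (c ^ 2 - 4 * (d : ℤ))
    with hS₂
  have hcard : S₁.card + S₂.card = S.card := by
    rw [hS₁, hS₂]
    exact card_filter_add_card_filter_not (s := S)
      (fun d : ℕ => ∃ c : ℤ, Cond (x + 1) c d ∧ ¬ IsSquare (c ^ 2 - 4 * (d : ℤ)))
  have hc1 : (S₁.card : ℝ) ≤ X * L / ((x : ℝ) + 1) := by
    have h1 := hpart1 S₁ (by
      intro d hd
      rw [hS₁, mem_filter] at hd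
      exact ⟨(hS d hd.1).1, (hS d hd.1).2.1, hd.2⟩)
    have h2 : (1 : ℝ) ≤ Real.log ((x : ℝ) + 1) ^ U := by
      apply one_le_pow₀
      have h3 : (1 : ℝ) ≤ l := by
        refine le_trans ?_ hl
        have : (1 : ℝ) ≤ 2 ^ U := one_le_pow₀ (by norm_num)
        linarith
      refine h3.trans ?_
      exact Real.log_le_log hx0 (by linarith)
    calc (S₁.card : ℝ) = S₁.card * 1 := by ring
      _ ≤ S₁.card * Real.log ((x : ℝ) + 1) ^ U := mul_le_mul_of_nonneg_left h2 (Nat.cast_nonneg _)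
      _ ≤ _ := h1
  have hc2 : (S₂.card : ℝ) ≤ κ * X + X / (((x + 1 : ℕ) : ℝ) - 2) := by
    apply square_count hκ0 (by omega)
    intro d hd
    rw [hS₂, mem_filter] at hd
    obtain ⟨g1, g2, c, g3⟩ := hS d hd.1
    obtain ⟨f1, f2, f3, _⟩ := hfacts d g1 g2 c g3
    have hsq : IsSquare (c ^ 2 - 4 * (d : ℤ)) := by
      by_contra hcon
      exact hd.2 ⟨c, g3, hcon⟩
    exact ⟨g1, g2, f3 hsq.nonneg, c, f1, hsq, f2⟩
  have h1 : κ * X ≤ 12 * (X * L / ((x : ℝ) + 1)) := by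
    calc κ * X ≤ 12 * L / ((x : ℝ) + 1) * X := mul_le_mul_of_nonneg_right hκ12 hX0.le
      _ = _ := by ring
  have h2 : (X : ℝ) / (((x + 1 : ℕ) : ℝ) - 2) ≤ 3 * (X * L / ((x : ℝ) + 1)) := by
    rw [hNr, mul_div_assoc', div_le_div_iff₀ (by linarith) (by linarith)]
    have h3 : (x : ℝ) + 1 ≤ 3 * L * ((x : ℝ) + 1 - 2) := by
      have e : 3 * L * ((x : ℝ) + 1 - 2) = (3 * L) * ((x : ℝ) - 1) := by ring
      have h4 : 2.07 * ((x : ℝ) - 1) ≤ (3 * L) * ((x : ℝ) - 1) :=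
        mul_le_mul_of_nonneg_right (by linarith) (by linarith)
      rw [e]
      linarith
    calc (X : ℝ) * ((x : ℝ) + 1) ≤ X * (3 * L * ((x : ℝ) + 1 - 2)) :=
          mul_le_mul_of_nonneg_left h3 hX0.le
      _ = _ := by ring
  have h3 : (S.card : ℝ) = S₁.card + S₂.card := by exact_mod_cast hcard.symm
  have h5 : 16 * (X : ℝ) * L / ((x : ℝ) + 1) = 16 * (X * L / ((x : ℝ) + 1)) := by ring
  rw [h3, h5]
  linarith

/-- **Density.** -/
theorem density (ε : ℝ) (hε : 0 < ε) : ∃ C : ℝ, 0 < C ∧ ∀ X : ℕ, 2 ≤ X → ∀ S : Finset ℕ,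
    (∀ d ∈ S, 1 ≤ d ∧ d ≤ X ∧ ∃ N : ℕ, Real.log d ^ (2 + ε) ≤ N ∧ ∃ c : ℤ, Cond N c d) →
    (S.card : ℝ) ≤ C * X / Real.log X ^ (1 + ε) := by
  classical
  obtain ⟨N₀, hN₀⟩ := main (ε / 2) (by positivity) 0
  have hlogT : Tendsto (fun X : ℕ => Real.log (X : ℝ)) atTop atTop :=
    Real.tendsto_log_atTop.comp tendsto_natCast_atTop_atTop
  have e1 : ∀ᶠ X : ℕ in atTop, (2 : ℝ) ^ (2 + ε) ≤ Real.log X ^ (ε / 2) :=
    ((tendsto_rpow_atTop (by positivity)).comp hlogT).eventually_ge_atTop _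
  have e2 : ∀ᶠ X : ℕ in atTop, (N₀ : ℝ) * 2 ^ (2 + ε) ≤ Real.log X ^ (2 + ε) :=
    ((tendsto_rpow_atTop (by positivity)).comp hlogT).eventually_ge_atTop _
  have e3 : ∀ᶠ X : ℕ in atTop, Real.log (X : ℝ) ^ (1 + ε) ≤ (X : ℝ) ^ (1 / 2 : ℝ) := by
    have h2 := isLittleO_log_rpow_rpow_atTop (1 + ε) (show (0 : ℝ) < 1 / 2 by norm_num)
    have h3 := h2.bound (show (0 : ℝ) < 1 by norm_num)
    have h4 := (tendsto_natCast_atTop_atTop (R := ℝ)).eventually h3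
    filter_upwards [h4, eventually_ge_atTop 1] with x hx hx1
    have hx1' : (1 : ℝ) ≤ x := by exact_mod_cast hx1
    have h5 : (0 : ℝ) ≤ Real.log x := Real.log_nonneg hx1'
    rwa [Real.norm_of_nonneg (by positivity), Real.norm_of_nonneg (by positivity), one_mul] at hx
  obtain ⟨X₀, hX₀⟩ := eventually_atTop.1 (e1.and (e2.and e3))
  set C₁ : ℝ := 16 * 2 ^ (2 + ε) + 1 with hC₁
  refine ⟨C₁ + Real.log (X₀ + 3 : ℕ) ^ (1 + ε), ?_, fun X hX S hS => ?_⟩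
  · have : 0 ≤ Real.log ((X₀ + 3 : ℕ) : ℝ) := Real.log_natCast_nonneg _
    positivity
  have hXr : (2 : ℝ) ≤ X := by exact_mod_cast hX
  have hX0 : (0 : ℝ) < X := by linarith
  have hL0 : 0 < Real.log (X : ℝ) := Real.log_pos (by linarith)
  set L : ℝ := Real.log X with hL
  have hLp : 0 < L ^ (1 + ε) := by positivity
  have hSX : S.card ≤ X := by
    have h1 : S ⊆ Icc 1 X := fun d hd => mem_Icc.2 ⟨(hS d hd).1, (hS d hd).2.1⟩
    have h2 := card_le_card h1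
    rwa [Nat.card_Icc, Nat.add_sub_cancel] at h2
  have hlX₀ : 0 ≤ Real.log ((X₀ + 3 : ℕ) : ℝ) := Real.log_natCast_nonneg _
  rcases lt_or_ge X X₀ with hlt | hge
  · rw [le_div_iff₀ hLp]
    have h1 : L ^ (1 + ε) ≤ Real.log ((X₀ + 3 : ℕ) : ℝ) ^ (1 + ε) := by
      apply Real.rpow_le_rpow hL0.le _ (by positivity)
      apply Real.log_le_log hX0
      exact_mod_cast (by omega : X ≤ X₀ + 3)
    have h2 : (S.card : ℝ) ≤ X := by exact_mod_cast hSX
    have h3 : 0 ≤ C₁ := by positivity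
    calc (S.card : ℝ) * L ^ (1 + ε) ≤ X * Real.log ((X₀ + 3 : ℕ) : ℝ) ^ (1 + ε) :=
          mul_le_mul h2 h1 (by positivity) hX0.le
      _ ≤ (C₁ + Real.log ((X₀ + 3 : ℕ) : ℝ) ^ (1 + ε)) * X := by nlinarith
  · obtain ⟨g1, g2, g3⟩ := hX₀ X hge
    rw [← hL] at g1 g2 g3
    -- the dimension
    set t : ℝ := (L / 2) ^ (2 + ε) with ht
    have ht0 : 0 < t := by positivity
    have hte : t * 2 ^ (2 + ε) = L ^ (2 + ε) := by
      rw [ht, ← Real.mul_rpow (by positivity) (by norm_num)]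
      congr 1
      ring
    have h2p : (0 : ℝ) < 2 ^ (2 + ε) := by positivity
    set M : ℕ := ⌈t⌉₊ with hM
    have hMt : t ≤ M := Nat.le_ceil t
    have hMN : N₀ ≤ M := by
      have h1 : (N₀ : ℝ) ≤ t := by
        rw [← hte] at g2
        exact le_of_mul_le_mul_right g2 h2p
      exact_mod_cast h1.trans hMt
    have hLM : L ^ (2 + ε / 2) ≤ M := by
      refine le_trans ?_ hMt
      have h1 : L ^ (2 + ε / 2) * 2 ^ (2 + ε) ≤ t * 2 ^ (2 + ε) := by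
        rw [hte]
        calc L ^ (2 + ε / 2) * 2 ^ (2 + ε) ≤ L ^ (2 + ε / 2) * L ^ (ε / 2) :=
              mul_le_mul_of_nonneg_left g1 (by positivity)
          _ = L ^ (2 + ε) := by
              rw [← Real.rpow_add hL0]; congr 1; ring
      exact le_of_mul_le_mul_right h1 h2p
    obtain ⟨-, -, hcount⟩ := hN₀ M hMN X hX hLM
    set S₁ := S.filter fun d => d ≤ Nat.sqrt X with hS₁
    set S₂ := S.filter fun d => ¬ d ≤ Nat.sqrt X with hS₂
    have hcard : S₁.card + S₂.card = S.card := card_filter_add_card_filter_not _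
    have hc1 : (S₁.card : ℝ) ≤ X / L ^ (1 + ε) := by
      have h1 : S₁ ⊆ Icc 1 (Nat.sqrt X) := fun d hd => by
        rw [hS₁, mem_filter] at hd
        exact mem_Icc.2 ⟨(hS d hd.1).1, hd.2⟩
      have h2 := card_le_card h1
      rw [Nat.card_Icc, Nat.add_sub_cancel] at h2
      have h3 : (S₁.card : ℝ) ≤ (Nat.sqrt X : ℝ) := by exact_mod_cast h2
      have h4 : (Nat.sqrt X : ℝ) ≤ (X : ℝ) ^ (1 / 2 : ℝ) := by
        rw [← Real.sqrt_eq_rpow]
        exact Real.nat_sqrt_le_real_sqrt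
      have h5 : (X : ℝ) ^ (1 / 2 : ℝ) * (X : ℝ) ^ (1 / 2 : ℝ) = X := by
        rw [← Real.rpow_add hX0]; norm_num
      rw [le_div_iff₀ hLp]
      calc (S₁.card : ℝ) * L ^ (1 + ε) ≤ (X : ℝ) ^ (1 / 2 : ℝ) * (X : ℝ) ^ (1 / 2 : ℝ) :=
            mul_le_mul (h3.trans h4) g3 (by positivity) (by positivity)
        _ = X := h5
    have hc2 : (S₂.card : ℝ) ≤ 16 * 2 ^ (2 + ε) * X / L ^ (1 + ε) := by
      have h1 := hcount S₂ (by
        intro d hd
        rw [hS₂, mem_filter, not_le] at hd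
        obtain ⟨hdS, hdX⟩ := hd
        obtain ⟨q1, q2, N, q3, c, q4⟩ := hS d hdS
        refine ⟨q1, q2, c, q4.mono ?_⟩
        rw [hM, Nat.ceil_le]
        refine le_trans ?_ q3
        rw [ht]
        apply Real.rpow_le_rpow (by positivity) _ (by positivity)
        have h2 : X < d ^ 2 := by rwa [Nat.sqrt_lt'] at hdX
        have h3 : (X : ℝ) ≤ (d : ℝ) ^ 2 := by exact_mod_cast h2.le
        have h4 := Real.log_le_log hX0 h3
        rw [Real.log_pow] at h4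
        push_cast at h4
        linarith)
      refine h1.trans ?_
      have hM0 : (0 : ℝ) < M := lt_of_lt_of_le ht0 hMt
      calc 16 * (X : ℝ) * L / M ≤ 16 * (X : ℝ) * L / t :=
            div_le_div_of_nonneg_left (by positivity) ht0 hMt
        _ = 16 * 2 ^ (2 + ε) * X / L ^ (1 + ε) := by
            have h5 : L ^ (2 + ε) = L * L ^ (1 + ε) := by
              rw [show 2 + ε = 1 + (1 + ε) by ring, Real.rpow_add hL0, Real.rpow_one]
            have h6 : t = L * L ^ (1 + ε) / 2 ^ (2 + ε) := by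
              rw [← h5, ← hte, mul_div_assoc, div_self h2p.ne', mul_one]
            rw [h6]
            field_simp
    have h3 : (S.card : ℝ) = S₁.card + S₂.card := by exact_mod_cast hcard.symm
    have h4 : (C₁ + Real.log ((X₀ + 3 : ℕ) : ℝ) ^ (1 + ε)) * X / L ^ (1 + ε) =
        X / L ^ (1 + ε) + 16 * 2 ^ (2 + ε) * X / L ^ (1 + ε) +
          Real.log ((X₀ + 3 : ℕ) : ℝ) ^ (1 + ε) * X / L ^ (1 + ε) := by
      rw [hC₁]; ring
    rw [h3, h4]
    have h5 : 0 ≤ Real.log ((X₀ + 3 : ℕ) : ℝ) ^ (1 + ε) * X / L ^ (1 + ε) := by positivity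
    linarith

end Pool.Agent.J4H46.HD
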