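import Pool.Agent.J4H46.HD.Disc
import Pool.Agent.N998.CT.Deg

set_option autoImplicit false

/-! Nearly equal factors, or large squarefree parts of the discriminant. -/

namespace Pool.Agent.J4H46.HD

open Filter Pool.Agent.R920.CH Pool.Agent.R852.BC Pool.Agent.N998.CT

/-- the roots are integers -/
theorem near_equal (N : ℕ) (hN : 3 ≤ N) (c₁ d a b u v : ℤ) (hba : b ≤ a)
    (hab : a + b = c₁) (hz : 0 < d - a * b) (hu : c₁ = u + v) (hv : d = u * v) (huv : v ≤ u)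
    (h : ∀ j : ℕ, j + 3 ≤ N →
      (a - 1) * seg (c₁ - 2) (d - c₁ + 1) j ≤ seg (c₁ - 2) (d - c₁ + 1) (j + 1)) :
    (N : ℤ) ≤ v + 1 ∧ (u - 1) ^ (N - 2) ≤ (u - v + 1) * (v - 1) ^ (N - 2) := by
  obtain ⟨n, rfl⟩ : ∃ n, N = n + 3 := ⟨N - 3, by omega⟩
  have hα : u - 1 < a - 1 := by
    by_contra hcon
    push Not at hcon
    have h1 : a ≤ u := by linarith
    have h2 : v ≤ a := by linarith
    have h3 : d - a * b = (a - u) * (a - v) := by
      rw [hv]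
      have : b = u + v - a := by linarith
      rw [this]; ring
    nlinarith
  obtain ⟨h1, h2⟩ := integral (u - 1) (v - 1) (c₁ - 2) (d - c₁ + 1) (a - 1) (by linarith)
    (by rw [hu, hv]; ring) (by linarith) hα n (fun j hj => h j (by omega))
  have e1 : n + 3 - 2 = n + 1 := by omega
  rw [e1]
  refine ⟨by push_cast; linarith, ?_⟩
  have e2 : u - v + 1 = 1 + (u - 1 - (v - 1)) := by ring
  rw [e2]
  exact h2

/-- the difference of nearly equal factors -/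
theorem near_log (n : ℕ) (v e : ℤ) (hv : 2 ≤ v) (he : 0 ≤ e)
    (h : (v + e - 1) ^ n ≤ (e + 1) * (v - 1) ^ n) :
    (e : ℝ) * n ≤ (v + e) * Real.log (e + 1) := by
  have hvr : (2 : ℝ) ≤ v := by exact_mod_cast hv
  have her : (0 : ℝ) ≤ e := by exact_mod_cast he
  have hr : ((v : ℝ) + e - 1) ^ n ≤ (e + 1) * (v - 1) ^ n := by exact_mod_cast h
  have hv1 : (0 : ℝ) < v - 1 := by linarith
  have hx : (0 : ℝ) < v + e - 1 := by linarith
  have h1 : (((v : ℝ) + e - 1) / (v - 1)) ^ n ≤ e + 1 := by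
    rw [div_pow, div_le_iff₀ (by positivity)]
    exact hr
  have h2 := Real.log_le_log (by positivity) h1
  rw [Real.log_pow] at h2
  have h3 : (e : ℝ) / (v + e - 1) ≤ Real.log (((v : ℝ) + e - 1) / (v - 1)) := by
    have h4 := Real.one_sub_inv_le_log_of_pos (show 0 < ((v : ℝ) + e - 1) / (v - 1) by positivity)
    refine le_trans (le_of_eq ?_) h4
    rw [inv_div]
    field_simp
    ring
  have h5 : (n : ℝ) * (e / (v + e - 1)) ≤ Real.log (e + 1) :=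
    (mul_le_mul_of_nonneg_left h3 (Nat.cast_nonneg n)).trans h2
  have hl : 0 ≤ Real.log ((e : ℝ) + 1) := Real.log_nonneg (by linarith)
  calc (e : ℝ) * n = (n * (e / (v + e - 1))) * (v + e - 1) := by field_simp
    _ ≤ Real.log (e + 1) * (v + e - 1) := mul_le_mul_of_nonneg_right h5 hx.le
    _ ≤ (v + e) * Real.log (e + 1) := by nlinarith

lemma ev_log (B η : ℝ) (hη : 0 < η) : ∀ᶠ N : ℕ in atTop, B * Real.log N ^ 2 ≤ (N : ℝ) ^ η := by
  have h := ((isLittleO_log_rpow_atTop (show 0 < η / 2 by positivity)).def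
    (show (0 : ℝ) < 1 / (|B| + 1) by positivity))
  have h2 := tendsto_natCast_atTop_atTop.eventually h
  filter_upwards [h2, eventually_ge_atTop 1] with N hN hN1
  have hN1r : (1 : ℝ) ≤ N := by exact_mod_cast hN1
  have hN0 : (0 : ℝ) < N := by linarith
  have hl : 0 ≤ Real.log (N : ℝ) := Real.log_nonneg hN1r
  rw [Real.norm_of_nonneg hl, Real.norm_of_nonneg (by positivity), div_mul_eq_mul_div, one_mul,
    le_div_iff₀ (by positivity)] at hN
  have e1 : (N : ℝ) ^ η = (N : ℝ) ^ (η / 2) * (N : ℝ) ^ (η / 2) := by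
    rw [← Real.rpow_add hN0]; congr 1; ring
  rw [e1]
  have h3 : (Real.log (N : ℝ) * (|B| + 1)) * (Real.log (N : ℝ) * (|B| + 1)) ≤
      (N : ℝ) ^ (η / 2) * (N : ℝ) ^ (η / 2) := mul_le_mul hN hN (by positivity) (by positivity)
  refine le_trans ?_ h3
  have hB : B ≤ |B| := le_abs_self B
  have hB0 : 0 ≤ |B| := abs_nonneg B
  have h4 : B ≤ (|B| + 1) * (|B| + 1) := by nlinarith
  calc B * Real.log (N : ℝ) ^ 2 ≤ ((|B| + 1) * (|B| + 1)) * Real.log (N : ℝ) ^ 2 :=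
        mul_le_mul_of_nonneg_right h4 (by positivity)
    _ = _ := by ring

/-- **The dichotomy.** -/
theorem dichotomy (A ε : ℝ) (hε : 0 < ε) : ∀ᶠ N : ℕ in atTop, ∀ c₁ d : ℤ,
    RiemannRoch N (poly2 c₁ d) →
    (∀ j : ℕ, j + 2 ≤ N → 0 ≤ seg (c₁ - 2) (d - c₁ + 1) j) →
    (4 * d ≤ c₁ ^ 2 → ∃ a b : ℤ, a + b = c₁ ∧ 0 < b ∧ b ≤ a ∧ 0 < d - a * b ∧
      ∀ j : ℕ, j + 3 ≤ N →
        (a - 1) * seg (c₁ - 2) (d - c₁ + 1) j ≤ seg (c₁ - 2) (d - c₁ + 1) (j + 1)) →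
    0 < d → (d : ℝ) ≤ (N : ℝ) ^ A →
    (∃ b e : ℤ, 0 ≤ e ∧ (N : ℤ) ≤ b + 1 ∧ c₁ = b + (b + e) ∧ d = b * (b + e) ∧
      (b + e - 1) ^ (N - 2) ≤ (e + 1) * (b - 1) ^ (N - 2)) ∨
    ((N : ℝ) ^ (4 * Real.exp (1 / 2) + 2 - ε) < d ∧
      ∀ f s : ℤ, c₁ ^ 2 - 4 * d = f * s ^ 2 →
        (N : ℝ) ^ (4 * Real.exp (1 / 2) - ε) < |(f : ℝ)|) := by
  filter_upwards [rank_two (max A 0 * 2 + 1) (ε / 2) (by positivity),
    ev_log (64 * (max A 0) ^ 2) (ε / 4) (by positivity),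
    ev_ge 196 (ε / 4) (by positivity), ev_log (16 * (max A 0) ^ 2) 1 (by norm_num),
    eventually_ge_atTop 12, ev_ge 2 (ε / 4) (by positivity)] with
    N hN hlog1 h196 hlog2 hN12 h2ε c₁ d hRR hseg huns hd hdA
  have hN12r : (12 : ℝ) ≤ N := by exact_mod_cast hN12
  have hN0 : (0 : ℝ) < N := by linarith
  have hN1 : (1 : ℝ) ≤ N := by linarith
  have hd1 : (1 : ℝ) ≤ d := by exact_mod_cast hd
  set A' : ℝ := max A 0 with hA'
  have hA0 : 0 ≤ A' := le_max_right _ _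
  have hdA' : (d : ℝ) ≤ (N : ℝ) ^ A' :=
    hdA.trans (Real.rpow_le_rpow_of_exponent_le hN1 (le_max_left _ _))
  have hlogd : Real.log d ≤ A' * Real.log N := by
    have h1 := Real.log_le_log (by linarith) hdA'
    rwa [Real.log_rpow hN0] at h1
  have hlogN : 0 ≤ Real.log (N : ℝ) := Real.log_nonneg hN1
  have hlogd0 : 0 ≤ Real.log (d : ℝ) := Real.log_nonneg hd1
  -- `4 log d ≤ N - 3`
  have hl4 : 4 * Real.log d ≤ (N : ℝ) - 3 := by
    have h1 : (4 * Real.log d) ^ 2 ≤ (N : ℝ) := by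
      have h2 : (4 * Real.log d) ^ 2 ≤ (4 * (A' * Real.log N)) ^ 2 :=
        pow_le_pow_left₀ (by positivity) (by linarith) 2
      have h3 : (4 * (A' * Real.log N)) ^ 2 = 16 * A' ^ 2 * Real.log N ^ 2 := by ring
      rw [h3] at h2
      have h4 := hlog2
      rw [Real.rpow_one] at h4
      exact h2.trans h4
    by_contra hcon
    push Not at hcon
    have h2 : ((N : ℝ) - 3) ^ 2 < (4 * Real.log d) ^ 2 :=
      pow_lt_pow_left₀ hcon (by linarith) (by norm_num)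
    nlinarith
  -- the discriminant
  have hDbound : |((c₁ : ℝ) ^ 2 - 4 * d)| * (N : ℝ) ^ 2 ≤ (N : ℝ) ^ (ε / 4) * d ∧
      |((c₁ : ℝ) ^ 2 - 4 * d)| ≤ 4 * (d : ℝ) ^ 2 := by
    rcases lt_or_ge (c₁ ^ 2) (4 * d) with hD | hD
    · obtain ⟨h1, h2⟩ := disc_neg N hN12 c₁ d hseg hD
      have hDr : (c₁ : ℝ) ^ 2 < 4 * d := by exact_mod_cast hD
      have h2r : ((N : ℝ) - 1) ^ 2 * (4 * d - (c₁ : ℝ) ^ 2) ≤ 49 * d := by exact_mod_cast h2
      rw [abs_of_neg (by linarith)]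
      constructor
      · have h3 : (N : ℝ) ^ 2 ≤ 4 * ((N : ℝ) - 1) ^ 2 := by nlinarith
        have h4 : (4 * d - (c₁ : ℝ) ^ 2) * (N : ℝ) ^ 2 ≤
            (4 * d - (c₁ : ℝ) ^ 2) * (4 * ((N : ℝ) - 1) ^ 2) :=
          mul_le_mul_of_nonneg_left h3 (by linarith)
        have h5 : 196 * (d : ℝ) ≤ (N : ℝ) ^ (ε / 4) * d :=
          mul_le_mul_of_nonneg_right h196 (by linarith)
        linarith
      · have h3 : (0 : ℝ) ≤ (c₁ : ℝ) ^ 2 := sq_nonneg _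
        nlinarith
    · obtain ⟨a, b, hab, hb, hba, hz, hj⟩ := huns hD
      obtain ⟨h1, h2, h3, h4⟩ := disc_pos N (by omega) c₁ d a b hb hba hab hz hD hj hl4
      have hDr : 4 * (d : ℝ) ≤ (c₁ : ℝ) ^ 2 := by exact_mod_cast hD
      have h2r : (0 : ℝ) < c₁ := by exact_mod_cast h2
      have h3r : (c₁ : ℝ) ≤ d := by exact_mod_cast h3
      rw [abs_of_nonneg (by linarith)]
      constructor
      · have h5 : (N : ℝ) ^ 2 ≤ 4 * ((N : ℝ) - 3) ^ 2 := by nlinarith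
        have h6 : ((c₁ : ℝ) ^ 2 - 4 * d) * (N : ℝ) ^ 2 ≤
            ((c₁ : ℝ) ^ 2 - 4 * d) * (4 * ((N : ℝ) - 3) ^ 2) :=
          mul_le_mul_of_nonneg_left h5 (by linarith)
        have h7 : 64 * Real.log d ^ 2 ≤ (N : ℝ) ^ (ε / 4) := by
          refine le_trans ?_ hlog1
          have h8 : Real.log (d : ℝ) ^ 2 ≤ (A' * Real.log N) ^ 2 := pow_le_pow_left₀ hlogd0 hlogd 2
          have h9 : 64 * A' ^ 2 * Real.log (N : ℝ) ^ 2 = 64 * (A' * Real.log N) ^ 2 := by ring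
          rw [h9]
          linarith
        have h8 : 64 * Real.log d ^ 2 * (d : ℝ) ≤ (N : ℝ) ^ (ε / 4) * d :=
          mul_le_mul_of_nonneg_right h7 (by linarith)
        linarith
      · nlinarith
  obtain ⟨hDb, hDd⟩ := hDbound
  -- small factors
  by_cases hex : ∃ f s : ℤ, c₁ ^ 2 - 4 * d = f * s ^ 2 ∧
      |(f : ℝ)| ≤ (N : ℝ) ^ (4 * Real.exp (1 / 2) - ε / 2)
  · left
    obtain ⟨f, s, hfs, hf⟩ := hex
    have hA2 : ((|c₁ ^ 2 - 4 * d| : ℤ) : ℝ) ≤ (N : ℝ) ^ (A' * 2 + 1) := by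
      push_cast
      refine hDd.trans ?_
      rw [Real.rpow_add hN0, Real.rpow_one, Real.rpow_mul hN0.le]
      have h1 : (d : ℝ) ^ 2 ≤ ((N : ℝ) ^ A') ^ 2 := pow_le_pow_left₀ (by linarith) hdA' 2
      have h2 : (((N : ℝ) ^ A') ^ (2 : ℝ)) = ((N : ℝ) ^ A') ^ 2 := Real.rpow_two _
      rw [h2]
      have h3 : 0 ≤ ((N : ℝ) ^ A') ^ 2 := by positivity
      nlinarith
    have hf2 : ((|f| : ℤ) : ℝ) ≤ (N : ℝ) ^ (4 * Real.exp (1 / 2) - ε / 2) := by
      push_cast; exact hf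
    obtain ⟨u, v, hu, hv⟩ := hN c₁ d f s hRR hfs hA2 hf2
    have hD : 4 * d ≤ c₁ ^ 2 := by
      rw [hu, hv]; nlinarith [sq_nonneg (u - v)]
    obtain ⟨a, b, hab, hb, hba, hz, hj⟩ := huns hD
    rcases le_total v u with huv | huv
    · obtain ⟨h1, h2⟩ := near_equal N (by omega) c₁ d a b u v hba hab hz hu hv huv hj
      refine ⟨v, u - v, by linarith, h1, by linarith, by rw [hv]; ring, ?_⟩
      have e1 : v + (u - v) - 1 = u - 1 := by ring
      rw [e1]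
      exact h2
    · obtain ⟨h1, h2⟩ := near_equal N (by omega) c₁ d a b v u hba hab hz (by linarith)
        (by rw [hv]; ring) huv hj
      refine ⟨u, v - u, by linarith, h1, by linarith, by rw [hv]; ring, ?_⟩
      have e1 : u + (v - u) - 1 = v - 1 := by ring
      rw [e1]
      exact h2
  · right
    push Not at hex
    have hmono : (N : ℝ) ^ (4 * Real.exp (1 / 2) - ε) ≤ (N : ℝ) ^ (4 * Real.exp (1 / 2) - ε / 2) :=
      Real.rpow_le_rpow_of_exponent_le hN1 (by linarith)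
    refine ⟨?_, fun f s hfs => lt_of_le_of_lt hmono (hex f s hfs)⟩
    have h1 := hex (c₁ ^ 2 - 4 * d) 1 (by ring)
    push_cast at h1
    have h2 : (N : ℝ) ^ (4 * Real.exp (1 / 2) - ε / 2) * (N : ℝ) ^ 2 < (N : ℝ) ^ (ε / 4) * d :=
      lt_of_lt_of_le (mul_lt_mul_of_pos_right h1 (by positivity)) hDb
    have e2 : (N : ℝ) ^ (4 * Real.exp (1 / 2) - ε / 2) * (N : ℝ) ^ 2 =
        (N : ℝ) ^ (ε / 4) * ((N : ℝ) ^ (ε / 4) * (N : ℝ) ^ (4 * Real.exp (1 / 2) + 2 - ε)) := by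
      rw [← Real.rpow_natCast (N : ℝ) 2, ← Real.rpow_add hN0, ← Real.rpow_add hN0,
        ← Real.rpow_add hN0]
      congr 1
      push_cast; ring
    rw [e2] at h2
    have h3 := lt_of_mul_lt_mul_left h2 (by positivity)
    refine lt_of_le_of_lt ?_ h3
    have h4 : (1 : ℝ) ≤ (N : ℝ) ^ (ε / 4) := by linarith
    have h5 : (0 : ℝ) ≤ (N : ℝ) ^ (4 * Real.exp (1 / 2) + 2 - ε) := by positivity
    nlinarith

end Pool.Agent.J4H46.HD
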