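import Pool.Agent.R503.PS.Sieve
import Pool.Agent.H423R2.RZL.HBLS

set_option autoImplicit false

/-! Few moduli for which almost all primes are quadratic residues: Heath-Brown's large sieve. -/

namespace Pool.Agent.J4H46.HD

open Finset Pool.Agent.R503.PS Pool.Agent.H306R2.RZ

theorem few_card_hb (η : ℝ) (hη : 0 < η) : ∃ C : ℝ, 0 < C ∧ ∀ (x k b Y : ℕ), 1 ≤ x → 1 ≤ k →
    Y ≤ x ^ k → 4 * b * k ≤ (PP x).card → 1 ≤ (PP x).card → ∀ D : Finset ℕ,
    (∀ d ∈ D, Odd d ∧ Squarefree d ∧ d ≤ Y ∧ Few x b d) →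
    (D.card : ℝ) * ((PP x).card.choose k : ℝ) ≤ C * ((x : ℝ) ^ k) ^ (1 + 2 * η) := by
  classical
  obtain ⟨C, hC, hLS⟩ := Pool.Agent.H423R2.RZL.HBLSn.HBLS η hη
  refine ⟨8 * C, by positivity, ?_⟩
  intro x k b Y hx hk hYx hbk hP1 D hD
  rcases D.eq_empty_or_nonempty with he | ⟨d₀, hd₀⟩
  · rw [he]; simp; positivity
  have hY : 1 ≤ Y := by
    obtain ⟨h1, _, h3, _⟩ := hD d₀ hd₀
    have : d₀ ≠ 0 := by
      rintro rfl
      exact absurd h1 (by decide)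
    omega
  set M : ℕ := x ^ k with hM
  have hM1 : 1 ≤ M := Nat.one_le_pow _ _ hx
  have hMr : (1 : ℝ) ≤ M := by exact_mod_cast hM1
  have hMpos : (0 : ℝ) < M := by linarith
  have hYr : (1 : ℝ) ≤ Y := by exact_mod_cast hY
  have hYM : (Y : ℝ) ≤ M := by exact_mod_cast hYx
  set Ch : ℝ := ((PP x).card.choose k : ℝ) with hCh
  have hCh0 : 0 ≤ Ch := Nat.cast_nonneg _
  have hDosf : D ⊆ osf Y := by
    intro m hm
    obtain ⟨a1, a2, a3, _⟩ := hD m hm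
    rw [osf, mem_filter, mem_Icc]
    have : m ≠ 0 := a2.ne_zero
    exact ⟨⟨by omega, a3⟩, a1, a2⟩
  have hPsqf : PK x k ⊆ sqf M := by
    intro q hq
    unfold PK at hq
    rw [mem_image] at hq
    obtain ⟨T, hT, rfl⟩ := hq
    rw [mem_powersetCard] at hT
    have hpr : ∀ p ∈ T, p.Prime := fun p hp => (mem_PP.1 (hT.1 hp)).2.1
    have h1 : ∏ p ∈ T, p ≤ ∏ _p ∈ T, x :=
      prod_le_prod' fun p hp => (mem_PP.1 (hT.1 hp)).1.2
    rw [prod_const, hT.2] at h1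
    rw [sqf, mem_filter, mem_Icc]
    refine ⟨⟨Nat.one_le_iff_ne_zero.2 ?_, h1⟩, ?_⟩
    · exact prod_ne_zero_iff.2 fun p hp => (hpr p hp).ne_zero
    · have h2 := Nat.primeFactors_prod (s := T) hpr
      rw [Nat.squarefree_iff_prime_squarefree]
      intro p hpp hdiv
      have hpd : p ∣ ∏ x ∈ T, x := (dvd_mul_right p p).trans hdiv
      have hmem : p ∈ T := by
        rw [← h2, Nat.mem_primeFactors]
        exact ⟨hpp, hpd, (Finset.prod_pos fun p hp' => (hpr p hp').pos).ne'⟩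
      rw [← mul_prod_erase T (fun x => x) hmem] at hdiv
      have h3 : p ∣ ∏ x ∈ T.erase p, x := Nat.dvd_of_mul_dvd_mul_left hpp.pos hdiv
      have h4 := Nat.primeFactors_prod (s := T.erase p) fun q hq => hpr q (mem_of_mem_erase hq)
      have h5 : p ∈ T.erase p := by
        rw [← h4, Nat.mem_primeFactors]
        exact ⟨hpp, h3, (Finset.prod_pos fun q hq => (hpr q (mem_of_mem_erase hq)).pos).ne'⟩
      exact absurd h5 (notMem_erase p T)
  obtain ⟨a, ha⟩ : ∃ a : ℕ → ℝ, ∀ s, a s = ∑ n ∈ D, js s n := ⟨_, fun _ => rfl⟩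
  have hlow : (D.card : ℝ) * Ch ≤ 2 * ∑ s ∈ PK x k, a s := by
    have e1 : ∑ s ∈ PK x k, a s = ∑ n ∈ D, ∑ s ∈ PK x k, js s n := by
      rw [sum_congr rfl fun s _ => ha s, sum_comm]
    rw [e1, mul_sum, ← nsmul_eq_mul, ← sum_const]
    apply sum_le_sum
    intro n hn
    have h2 := lower hk hbk hP1 (hD n hn).2.2.2
    have h3 : (((PP x).card.choose k : ℤ) : ℝ) ≤
        ((2 * ∑ s ∈ PK x k, jacobiSym (s : ℤ) n : ℤ) : ℝ) := by
      exact_mod_cast h2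
    push_cast at h3
    exact h3
  have h1 := hLS M Y hM1 hY (fun n => if n ∈ D then 1 else 0)
  have hup : ∑ s ∈ PK x k, a s ^ 2 ≤
      ∑ m ∈ sqf M, ‖∑ n ∈ osf Y, (if n ∈ D then (1 : ℂ) else 0) * (js m n : ℂ)‖ ^ 2 := by
    refine le_trans (sum_le_sum fun s hs => ?_)
      (sum_le_sum_of_subset_of_nonneg hPsqf fun _ _ _ => by positivity)
    have e1 : ∑ n ∈ osf Y, (if n ∈ D then (1 : ℂ) else 0) * (js s n : ℂ) = ((a s : ℝ) : ℂ) := by
      have e2 : ∀ n ∈ osf Y, (if n ∈ D then (1 : ℂ) else 0) * (js s n : ℂ) =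
          if n ∈ D then (js s n : ℂ) else 0 := by
        intro n _
        split_ifs with h <;> simp
      rw [sum_congr rfl e2, sum_ite_mem, inter_eq_right.mpr hDosf, ha]
      push_cast
      rfl
    rw [e1, Complex.norm_real, Real.norm_eq_abs, sq_abs]
  have hR : ∑ n ∈ osf Y, ‖(if n ∈ D then (1 : ℂ) else 0)‖ ^ 2 = D.card := by
    have e2 : ∀ n ∈ osf Y, ‖(if n ∈ D then (1 : ℂ) else 0)‖ ^ 2 =
          if n ∈ D then (1 : ℝ) else 0 := by
      intro n _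
      split_ifs with h <;> simp
    rw [sum_congr rfl e2, sum_ite_mem, inter_eq_right.mpr hDosf]
    simp
  have h2 := hup.trans h1
  rw [hR] at h2
  have h3 : (∑ s ∈ PK x k, a s) ^ 2 ≤ (PK x k).card * ∑ s ∈ PK x k, a s ^ 2 :=
    sq_sum_le_card_mul_sum_sq
  rw [card_PK] at h3
  have e5 : C * ((M : ℝ) * Y) ^ η * (M + Y) ≤ 2 * C * (M : ℝ) ^ (1 + 2 * η) := by
    have g1 : ((M : ℝ) * Y) ^ η ≤ ((M : ℝ) * M) ^ η :=
      Real.rpow_le_rpow (by positivity) (mul_le_mul_of_nonneg_left hYM hMpos.le) hη.le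
    have g2 : ((M : ℝ) * M) ^ η * M = (M : ℝ) ^ (1 + 2 * η) := by
      rw [Real.mul_rpow hMpos.le hMpos.le, ← Real.rpow_add hMpos]
      nth_rewrite 2 [← Real.rpow_one (M : ℝ)]
      rw [← Real.rpow_add hMpos]
      congr 1
      ring
    have g3 : 0 ≤ ((M : ℝ) * Y) ^ η := by positivity
    calc C * ((M : ℝ) * Y) ^ η * (M + Y) ≤ C * ((M : ℝ) * M) ^ η * (M + M) := by
          apply mul_le_mul (mul_le_mul_of_nonneg_left g1 hC.le) (by linarith) (by positivity)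
            (by positivity)
      _ = 2 * C * (((M : ℝ) * M) ^ η * M) := by ring
      _ = _ := by rw [g2]
  have h2' : ∑ s ∈ PK x k, a s ^ 2 ≤ 2 * C * (M : ℝ) ^ (1 + 2 * η) * D.card :=
    h2.trans (mul_le_mul_of_nonneg_right e5 (Nat.cast_nonneg _))
  have h4 : (∑ s ∈ PK x k, a s) ^ 2 ≤ Ch * (2 * C * (M : ℝ) ^ (1 + 2 * η) * D.card) :=
    h3.trans (mul_le_mul_of_nonneg_left h2' hCh0)
  have h5 : ((D.card : ℝ) * Ch) ^ 2 ≤ (2 * ∑ s ∈ PK x k, a s) ^ 2 :=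
    pow_le_pow_left₀ (by positivity) hlow 2
  have hMcast : ((x : ℝ) ^ k) = (M : ℝ) := by rw [hM]; push_cast; rfl
  rw [hMcast]
  rcases hCh0.eq_or_lt with h0 | h0
  · rw [← h0, mul_zero]
    positivity
  have hDc : (0 : ℝ) < D.card := by
    have : 0 < D.card := card_pos.2 ⟨d₀, hd₀⟩
    exact_mod_cast this
  have h6 : ((D.card : ℝ) * Ch) * ((D.card : ℝ) * Ch) ≤
      ((D.card : ℝ) * Ch) * (8 * C * (M : ℝ) ^ (1 + 2 * η)) := by
    calc ((D.card : ℝ) * Ch) * ((D.card : ℝ) * Ch) = ((D.card : ℝ) * Ch) ^ 2 := by ring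
      _ ≤ (2 * ∑ s ∈ PK x k, a s) ^ 2 := h5
      _ = 4 * (∑ s ∈ PK x k, a s) ^ 2 := by ring
      _ ≤ 4 * (Ch * (2 * C * (M : ℝ) ^ (1 + 2 * η) * D.card)) :=
          mul_le_mul_of_nonneg_left h4 (by norm_num)
      _ = _ := by ring
  exact le_of_mul_le_mul_left h6 (by positivity)

end Pool.Agent.J4H46.HD
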