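import Pool.Agent.J4H46.HD.Sieve
import Pool.Agent.J4H46.HD.Low
import Pool.Agent.R503.PS.Count

set_option autoImplicit false

/-! The sum of `1 / √d` over the exceptional moduli. -/

namespace Pool.Agent.J4H46.HD

open Finset Filter Topology Pool.Agent.R503.PS

/-- powers grow -/
lemma ev_pow (c : ℝ) {θ : ℝ} (hθ : 0 < θ) : ∀ᶠ x : ℕ in atTop, c ≤ (x : ℝ) ^ θ :=
  tendsto_natCast_atTop_atTop.eventually ((tendsto_rpow_atTop hθ).eventually_ge_atTop c)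

/-- lower bound of binomial coefficients -/
lemma choose_pow {P k : ℕ} (hk : 1 ≤ k) (hP : 2 * k ≤ P) :
    ((P : ℝ) / (2 * k)) ^ k ≤ P.choose k := by
  refine le_trans ?_ (choose_lower hk hP)
  have hkr : (0 : ℝ) < k := by exact_mod_cast hk
  have h1 : ((P : ℝ) / (2 * k)) ^ k = ((P : ℝ) / 2) ^ k / (k : ℝ) ^ k := by
    rw [← div_pow]; congr 1; field_simp
  rw [h1]
  apply div_le_div_of_nonneg_left (by positivity) (by positivity)
  exact_mod_cast Nat.factorial_le_pow k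

/-- the moduli up to `x` -/
lemma small_moduli : ∀ᶠ x : ℕ in atTop, ∀ b : ℕ, 12 * b ≤ (PP x).card → ∀ D : Finset ℕ,
    (∀ d ∈ D, Odd d ∧ Squarefree d ∧ d ≤ x ∧ Few x b d) →
    (D.card : ℝ) ≤ 768 * Real.log x ^ 9 := by
  filter_upwards [PP_card, log_large 1, log_pow_rpow 9 384 (show (0 : ℝ) < 1 by norm_num),
    log_pow_rpow 3 6 (show (0 : ℝ) < 1 by norm_num), eventually_ge_atTop 2] with x hPP hl h9 h3 hx2
    b hb D hD
  set P : ℕ := (PP x).card with hP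
  have hl0 : 0 < Real.log (x : ℝ) := by linarith
  set l : ℝ := Real.log x with hldef
  have hx0 : (0 : ℝ) < x := by
    have : (2 : ℝ) ≤ x := by exact_mod_cast hx2
    linarith
  rw [Real.rpow_one] at h9 h3
  have hP6 : (6 : ℝ) ≤ P := by
    refine le_trans ?_ hPP
    rw [le_div_iff₀ (by positivity)]
    exact h3
  have hP6' : 6 ≤ P := by exact_mod_cast hP6
  have hch := choose_lower (N := P) (k := 3) (by norm_num) (by omega)
  have hch2 : (x : ℝ) ^ 3 / (48 * l ^ 9) ≤ P.choose 3 := by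
    refine le_trans ?_ hch
    have h1 : (x : ℝ) ^ 3 / (48 * l ^ 9) = ((x : ℝ) / l ^ 3 / 2) ^ 3 / (Nat.factorial 3 : ℕ) := by
      rw [show ((Nat.factorial 3 : ℕ) : ℝ) = 6 by norm_num [Nat.factorial]]
      field_simp
      ring
    rw [h1]
    refine div_le_div_of_nonneg_right ?_ (by positivity)
    refine pow_le_pow_left₀ (by positivity) ?_ 3
    exact div_le_div_of_nonneg_right hPP (by norm_num)
  have hY : 8 * x ^ 2 ≤ P.choose 3 := by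
    have h1 : (8 * x ^ 2 : ℝ) ≤ P.choose 3 := by
      refine le_trans ?_ hch2
      rw [le_div_iff₀ (by positivity)]
      calc 8 * (x : ℝ) ^ 2 * (48 * l ^ 9) = (384 * l ^ 9) * (x : ℝ) ^ 2 := by ring
        _ ≤ (x : ℝ) * (x : ℝ) ^ 2 := mul_le_mul_of_nonneg_right h9 (by positivity)
        _ = (x : ℝ) ^ 3 := by ring
    exact_mod_cast h1
  have hfew := few_card (x := x) (k := 3) (b := b) (Y := x) (by omega) (by norm_num)
    (by omega) (by omega) hY D hD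
  have hfew' : (D.card : ℝ) * P.choose 3 ≤ 16 * (x : ℝ) ^ 3 := by exact_mod_cast hfew
  have h1 : (D.card : ℝ) * ((x : ℝ) ^ 3 / (48 * l ^ 9)) ≤ 16 * (x : ℝ) ^ 3 :=
    (mul_le_mul_of_nonneg_left hch2 (Nat.cast_nonneg _)).trans hfew'
  rw [mul_div_assoc', div_le_iff₀ (by positivity)] at h1
  have h2 : (D.card : ℝ) * (x : ℝ) ^ 3 ≤ (768 * l ^ 9) * (x : ℝ) ^ 3 := by linarith
  exact le_of_mul_le_mul_right h2 (by positivity)

/-- one block -/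
lemma block (C η : ℝ) (hC : 0 < C) {x k b P X : ℕ} (hP : P = (PP x).card)
    (hHB : ∀ (x k b Y : ℕ), 1 ≤ x → 1 ≤ k →
      Y ≤ x ^ k → 4 * b * k ≤ (PP x).card → 1 ≤ (PP x).card → ∀ D : Finset ℕ,
      (∀ d ∈ D, Odd d ∧ Squarefree d ∧ d ≤ Y ∧ Few x b d) →
      (D.card : ℝ) * ((PP x).card.choose k : ℝ) ≤ C * ((x : ℝ) ^ k) ^ (1 + 2 * η))
    (hx : 2 ≤ x) (hk : 2 ≤ k) (hl1 : 1 ≤ Real.log x) (hPl : (x : ℝ) / Real.log x ^ 3 ≤ P)
    (hbk : 4 * b * k ≤ P) (hkP : 2 * k ≤ P) (D : Finset ℕ)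
    (hD : ∀ d ∈ D, Odd d ∧ Squarefree d ∧ d ≤ X ∧ Few x b d ∧ x ^ (k - 1) < d ∧ d ≤ x ^ k) :
    ∑ d ∈ D, 1 / √(d : ℝ) ≤ C * (x : ℝ) ^ (1 / 2 : ℝ) *
      (2 * k * Real.log x ^ 3 * (x : ℝ) ^ (2 * η - 1 / 2)) ^ k := by
  have hxr : (2 : ℝ) ≤ x := by exact_mod_cast hx
  have hx0 : (0 : ℝ) < x := by linarith
  have hkr : (0 : ℝ) < k := by
    have : 0 < k := by omega
    exact_mod_cast this
  have hP1 : 1 ≤ (PP x).card := by omega
  have h1 := hHB x k b (x ^ k) (by omega) (by omega) le_rfl (by rw [← hP]; exact hbk) hP1 D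
    fun d hd => ⟨(hD d hd).1, (hD d hd).2.1, (hD d hd).2.2.2.2.2, (hD d hd).2.2.2.1⟩
  rw [← hP] at h1
  have hch := choose_pow (P := P) (k := k) (by omega) hkP
  have hPr : (0 : ℝ) < P := lt_of_lt_of_le (by positivity) hPl
  have hl0 : 0 < Real.log (x : ℝ) := by linarith
  set l : ℝ := Real.log x with hl
  have hlow : ((x : ℝ) / (2 * k * l ^ 3)) ^ k ≤ P.choose k := by
    refine le_trans ?_ hch
    apply pow_le_pow_left₀ (by positivity)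
    rw [div_le_div_iff₀ (by positivity) (by positivity)]
    rw [div_le_iff₀ (by positivity)] at hPl
    calc (x : ℝ) * (2 * k) ≤ (P * l ^ 3) * (2 * k) := mul_le_mul_of_nonneg_right hPl (by positivity)
      _ = _ := by ring
  have h2 : (D.card : ℝ) * ((x : ℝ) / (2 * k * l ^ 3)) ^ k ≤ C * ((x : ℝ) ^ k) ^ (1 + 2 * η) :=
    (mul_le_mul_of_nonneg_left hlow (Nat.cast_nonneg _)).trans h1
  -- the number of elements
  have hpos : (0 : ℝ) < ((x : ℝ) / (2 * k * l ^ 3)) ^ k := by positivity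
  have h3 : (D.card : ℝ) ≤ C * (2 * k * l ^ 3 * (x : ℝ) ^ (2 * η)) ^ k := by
    have e1 : C * ((x : ℝ) ^ k) ^ (1 + 2 * η) =
        (C * (2 * k * l ^ 3 * (x : ℝ) ^ (2 * η)) ^ k) * ((x : ℝ) / (2 * k * l ^ 3)) ^ k := by
      rw [mul_assoc, ← mul_pow]
      have e2 : 2 * k * l ^ 3 * (x : ℝ) ^ (2 * η) * ((x : ℝ) / (2 * k * l ^ 3)) =
          (x : ℝ) ^ (1 + 2 * η) := by
        rw [Real.rpow_add hx0, Real.rpow_one]
        field_simp
      rw [e2, ← Real.rpow_natCast, ← Real.rpow_mul hx0.le, ← Real.rpow_natCast,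
        ← Real.rpow_mul hx0.le, mul_comm (k : ℝ)]
    rw [e1] at h2
    exact le_of_mul_le_mul_right h2 hpos
  -- the terms
  have h4 : ∀ d ∈ D, 1 / √(d : ℝ) ≤ (x : ℝ) ^ (1 / 2 : ℝ) * ((x : ℝ) ^ (-(1 / 2) : ℝ)) ^ k := by
    intro d hd
    have h5 := (hD d hd).2.2.2.2.1
    have h6 : ((x : ℝ) ^ (k - 1)) ≤ d := by exact_mod_cast h5.le
    have h7 : √((x : ℝ) ^ (k - 1)) ≤ √(d : ℝ) := Real.sqrt_le_sqrt h6
    have h8 : (0 : ℝ) < √((x : ℝ) ^ (k - 1)) := Real.sqrt_pos.2 (by positivity)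
    have h9 : 1 / √(d : ℝ) ≤ 1 / √((x : ℝ) ^ (k - 1)) := one_div_le_one_div_of_le h8 h7
    refine h9.trans (le_of_eq ?_)
    rw [Real.sqrt_eq_rpow, ← Real.rpow_natCast, ← Real.rpow_mul hx0.le, one_div,
      ← Real.rpow_neg hx0.le, ← Real.rpow_natCast, ← Real.rpow_mul hx0.le, ← Real.rpow_add hx0]
    congr 1
    rw [Nat.cast_sub (by omega)]
    push_cast
    ring
  calc ∑ d ∈ D, 1 / √(d : ℝ) ≤ ∑ _d ∈ D, (x : ℝ) ^ (1 / 2 : ℝ) * ((x : ℝ) ^ (-(1 / 2) : ℝ)) ^ k :=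
        sum_le_sum h4
    _ = D.card * ((x : ℝ) ^ (1 / 2 : ℝ) * ((x : ℝ) ^ (-(1 / 2) : ℝ)) ^ k) := by
        rw [sum_const, nsmul_eq_mul]
    _ ≤ (C * (2 * k * l ^ 3 * (x : ℝ) ^ (2 * η)) ^ k) *
        ((x : ℝ) ^ (1 / 2 : ℝ) * ((x : ℝ) ^ (-(1 / 2) : ℝ)) ^ k) :=
        mul_le_mul_of_nonneg_right h3 (by positivity)
    _ = C * (x : ℝ) ^ (1 / 2 : ℝ) *
        ((2 * k * l ^ 3 * (x : ℝ) ^ (2 * η)) * (x : ℝ) ^ (-(1 / 2) : ℝ)) ^ k := by
        rw [mul_pow _ ((x : ℝ) ^ (-(1 / 2) : ℝ))]; ring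
    _ = _ := by
        congr 2
        rw [mul_assoc, ← Real.rpow_add hx0]
        congr 2

end Pool.Agent.J4H46.HD
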